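import Pool.Agent.IGP.PRank

/-! MP_e3ace9_al, Q1.  Colourings of words of partitions: the rows of the stacked picture of a word
`w` of length `N` are numbered `0, …, N`; a colouring assigns to every row a function `Fin n → 𝔽₂`,
constant on the blocks of the letters.  Two points of the picture are connected iff all colourings
take the same value at them. -/

namespace Pool.Agent.IGQ

open Pool.Agent.IGP Pool.Agent.IGP.Part

variable {n : ℕ}

/-- the colourings of the stacked picture of a word of partitions -/
def Col : List (Part n) → (ℕ → Fin n → ZMod 2) → Prop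
  | [], _ => True
  | a :: w, F => B a (F 0) (F 1) ∧ Col w (fun r => F (r + 1))

theorem Col_cons (a : Part n) (w : List (Part n)) (F : ℕ → Fin n → ZMod 2) :
    Col (a :: w) F ↔ B a (F 0) (F 1) ∧ Col w (fun r => F (r + 1)) := Iff.rfl

theorem Col_append (u v : List (Part n)) (F : ℕ → Fin n → ZMod 2) :
    Col (u ++ v) F ↔ Col u F ∧ Col v (fun r => F (r + u.length)) := by
  induction u generalizing F with
  | nil => simp [Col]
  | cons a u ih =>
    rw [List.cons_append, Col_cons, Col_cons, ih, and_assoc]
    have : (fun r => F (r + u.length + 1)) = fun r => F (r + (a :: u).length) := by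
      funext r
      rw [List.length_cons, add_assoc]
    rw [this]

theorem Col_congr {w : List (Part n)} {F F' : ℕ → Fin n → ZMod 2}
    (h : ∀ r ≤ w.length, F r = F' r) (hF : Col w F) : Col w F' := by
  induction w generalizing F F' with
  | nil => trivial
  | cons a w ih =>
    rw [Col_cons] at hF ⊢
    refine ⟨?_, ih (fun r hr => h (r + 1) (by rw [List.length_cons]; omega)) hF.2⟩
    rw [← h 0 (by omega), ← h 1 (by rw [List.length_cons]; omega)]
    exact hF.1

/-- gluing of colourings -/
theorem Col_glue {u v : List (Part n)} {F G : ℕ → Fin n → ZMod 2} (hF : Col u F) (hG : Col v G)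
    (h : F u.length = G 0) : ∃ H, Col (u ++ v) H ∧ (∀ r ≤ u.length, H r = F r) ∧
      ∀ r, H (u.length + r) = G r := by
  let H : ℕ → Fin n → ZMod 2 := fun r => if r ≤ u.length then F r else G (r - u.length)
  have h1 : ∀ r ≤ u.length, H r = F r := fun r hr => if_pos hr
  have h2 : ∀ r, H (u.length + r) = G r := by
    intro r
    rcases Nat.eq_zero_or_pos r with hr | hr
    · subst hr
      rw [add_zero, h1 _ le_rfl, h]
    · have : ¬ u.length + r ≤ u.length := by omega
      simp only [H, if_neg this]
      congr 1
      omega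
  refine ⟨H, ?_, h1, h2⟩
  rw [Col_append]
  refine ⟨Col_congr (fun r hr => (h1 r hr).symm) hF, Col_congr (fun r _ => ?_) hG⟩
  rw [add_comm, h2]

theorem B_prod (w : List (Part n)) (f g : Fin n → ZMod 2) :
    B w.prod f g ↔ ∃ F, Col w F ∧ F 0 = f ∧ F w.length = g := by
  induction w generalizing f g with
  | nil =>
    rw [List.prod_nil, B_one]
    constructor
    · rintro rfl
      exact ⟨fun _ => f, trivial, rfl, rfl⟩
    · rintro ⟨F, -, h1, h2⟩
      exact h1.symm.trans h2
  | cons a w ih =>
    rw [List.prod_cons, B_mul]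
    constructor
    · rintro ⟨k, h1, h2⟩
      obtain ⟨F, hF, h3, h4⟩ := (ih k g).1 h2
      refine ⟨fun r => if r = 0 then f else F (r - 1), ?_, rfl, ?_⟩
      · rw [Col_cons]
        refine ⟨?_, Col_congr (fun r _ => ?_) hF⟩
        · simp only [one_ne_zero, if_false, if_true, Nat.sub_self, h3]
          exact h1
        · simp
      · simp [h4]
    · rintro ⟨F, hF, h1, h2⟩
      rw [Col_cons] at hF
      refine ⟨F 1, h1 ▸ hF.1, (ih _ _).2 ⟨fun r => F (r + 1), hF.2, rfl, ?_⟩⟩
      rw [List.length_cons] at h2
      exact h2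

theorem Col_mul {w : List (Part n)} {F G : ℕ → Fin n → ZMod 2} (hF : Col w F) (hG : Col w G) :
    Col w (fun r i => F r i * G r i) := by
  induction w generalizing F G with
  | nil => trivial
  | cons a w ih =>
    rw [Col_cons] at hF hG ⊢
    refine ⟨?_, ih hF.2 hG.2⟩
    intro x y hxy
    have h1 := hF.1 x y hxy
    have h2 := hG.1 x y hxy
    rcases x with x | x <;> rcases y with y | y <;>
      · simp only [Sum.elim_inl, Sum.elim_inr] at h1 h2 ⊢
        rw [h1, h2]

theorem Col_sub {w : List (Part n)} {F G : ℕ → Fin n → ZMod 2} (hF : Col w F) (hG : Col w G) :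
    Col w (fun r i => F r i - G r i) := by
  induction w generalizing F G with
  | nil => trivial
  | cons a w ih =>
    rw [Col_cons] at hF hG ⊢
    refine ⟨?_, ih hF.2 hG.2⟩
    intro x y hxy
    have h1 := hF.1 x y hxy
    have h2 := hG.1 x y hxy
    rcases x with x | x <;> rcases y with y | y <;>
      · simp only [Sum.elim_inl, Sum.elim_inr] at h1 h2 ⊢
        rw [h1, h2]

theorem Col_const (w : List (Part n)) (c : ZMod 2) : Col w (fun _ _ => c) := by
  induction w with
  | nil => trivial
  | cons a w ih =>
    rw [Col_cons]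
    refine ⟨?_, ih⟩
    intro x y _
    rcases x with x | x <;> rcases y with y | y <;> rfl

/-- replacing a factor by another one with the same product does not change the restrictions of the
colourings to the other rows. -/
theorem Col_splice {x l r y : List (Part n)} (h : l.prod = r.prod) {F : ℕ → Fin n → ZMod 2}
    (hF : Col (x ++ l ++ y) F) : ∃ F', Col (x ++ r ++ y) F' ∧ (∀ s ≤ x.length, F' s = F s) ∧
      ∀ s, F' (x.length + r.length + s) = F (x.length + l.length + s) := by
  rw [Col_append, Col_append] at hF
  obtain ⟨⟨h1, h2⟩, h3⟩ := hF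
  have h4 : B l.prod (F x.length) (F (x.length + l.length)) :=
    (B_prod _ _ _).2 ⟨_, h2, by simp, by simp [add_comm]⟩
  rw [h] at h4
  obtain ⟨G, hG, hG0, hG1⟩ := (B_prod _ _ _).1 h4
  obtain ⟨H, hH, hH1, hH2⟩ := Col_glue h1 hG hG0.symm
  have h5 : H (x ++ r).length = (fun s => F (s + (x ++ l).length)) 0 := by
    rw [List.length_append, hH2, hG1]
    simp
  obtain ⟨K, hK, hK1, hK2⟩ := Col_glue hH h3 h5
  refine ⟨K, hK, fun s hs => ?_, fun s => ?_⟩
  · rw [hK1 s (by rw [List.length_append]; omega), hH1 s hs]
  · have := hK2 s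
    rw [List.length_append] at this
    rw [this]
    show F (s + (x ++ l).length) = _
    rw [List.length_append, add_comm]

/-- connectedness of the point `i` between `x` and `s` with the point `j` between `s` and `y` in the
picture of the product `x s y`. -/
def CS (x s y : Part n) (i j : Fin n) : Prop :=
  ∀ f g g' f', B x f g → B s g g' → B y g' f' → g i = g' j

theorem CS_iff (u s v : List (Part n)) (i j : Fin n) :
    CS u.prod s.prod v.prod i j ↔
      ∀ F, Col (u ++ s ++ v) F → F u.length i = F (u.length + s.length) j := by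
  constructor
  · intro h F hF
    rw [Col_append, Col_append] at hF
    obtain ⟨⟨h1, h2⟩, h3⟩ := hF
    refine h (F 0) (F u.length) (F (u.length + s.length)) (F (u.length + s.length + v.length))
      ?_ ?_ ?_
    · exact (B_prod _ _ _).2 ⟨_, h1, rfl, rfl⟩
    · exact (B_prod _ _ _).2 ⟨_, h2, by simp, by simp [add_comm]⟩
    · refine (B_prod _ _ _).2 ⟨_, h3, by simp, ?_⟩
      rw [List.length_append]
      congr 1
      omega
  · intro h f g g' f' h1 h2 h3
    obtain ⟨F1, hF1, h10, h11⟩ := (B_prod _ _ _).1 h1
    obtain ⟨F2, hF2, h20, h21⟩ := (B_prod _ _ _).1 h2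
    obtain ⟨F3, hF3, h30, h31⟩ := (B_prod _ _ _).1 h3
    obtain ⟨G, hG, hG1, hG2⟩ := Col_glue hF1 hF2 (h11.trans h20.symm)
    have h4 : G (u ++ s).length = F3 0 := by
      rw [List.length_append, hG2, h21, h30]
    obtain ⟨H, hH, hH1, hH2⟩ := Col_glue hG hF3 h4
    have h5 := h H hH
    rw [hH1 _ (by rw [List.length_append]; omega), hH1 _ (by rw [List.length_append]),
      hG1 _ le_rfl, hG2, h11, h21] at h5
    exact h5

end Pool.Agent.IGQ
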