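import Pool.Agent.IGP.Low

/-! MP_e3ace9_al, Q1, module Elem: the elements.

`j, k, s, x, y` are distinct points; `e1 = pr ![x]`, `e = pr ![j, k, y]`, `e' = pr ![j, k, x]` (projections),
`AA a b = tau (pair a b) * eps b` (blocks `{a, b, a'}`, `{b'}`), `GG = X (eps s) X (AA s k) X (AA k j) X (AA j s)`.

PROOF.  `B (AA a b) f g ↔ f a = f b ∧ ∀ i ≠ b, f i = g i` (`B_mul`, `B_tau`, `B_eps`).  `γ := pi GG`:
`B γ f g ↔ g j = f k ∧ g k = f j ∧ ∀ i, i ≠ s → i ≠ j → i ≠ k → g i = f i` (`s` is free on both sides), so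
`star γ = γ` (`B_inj`, `B_star`) and `γ * e = e * γ`, `γ * e' = e' * γ`, `γ * e1 = e1 = e1 * γ`.
`e1_G`: letter by letter with `IG.X_mul_left` (`e1 * eps s = e1`, `e1 * AA s k = e1`, ...).
`G_e`: `low_eq` with `r = 3` (`prk_pr`): both sides are regular (`IsReg.mul_left`, `IsReg.mul_right`, `isReg_X`:
`prk (γ * e) = prk e` because `γ * (γ * e) = e`), and `zeta` agrees: `Ext` product, `coc.m γ e = coc.m e γ`, because
`fl γ e = fl e γ` for self adjoint partitions (`star_pr`).
`G_e1`: `low_eq` with `r = 1`; `zeta (X e1 * GG) = zeta (X e1)` gives `(zeta GG).snd = - coc.m e1 γ = - coc.m γ e1`.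
`drop*`: `e * e' = pr ![j, k]`, `e * e1 = e1 * e = pr ![]`, `prk_pr`.
-/

namespace Pool.Agent.IGQ

open Pool.Agent.IGP Pool.Agent.IGP.Part

variable {n : ℕ}

/-- blocks `{a, b, a'}`, `{b'}` -/
def AA (a b : Fin n) : Part n := tau (pair a b) * eps b

/-- the element which exchanges the strands `j` and `k` -/
noncomputable def GG (j k s : Fin n) : IG (Part n) :=
  IG.X (eps s) * IG.X (AA s k) * IG.X (AA k j) * IG.X (AA j s)

variable {j k s x y : Fin n}

private theorem B_AA (a b : Fin n) (f g : Fin n → ZMod 2) :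
    B (AA a b) f g ↔ f a = f b ∧ ∀ i, i ≠ b → f i = g i := by
  unfold AA
  rw [B_mul]
  constructor
  · rintro ⟨h, h1, h2⟩
    rw [B_tau] at h1
    rw [B_eps] at h2
    obtain ⟨rfl, h3⟩ := h1
    exact ⟨h3 a b ((pair_iff a b a b).2 (Or.inr ⟨Or.inl rfl, Or.inr rfl⟩)), h2⟩
  · rintro ⟨h1, h2⟩
    refine ⟨f, (B_tau _ _ _).2 ⟨rfl, ?_⟩, (B_eps _ _ _).2 h2⟩
    intro u v huv
    rw [pair_iff] at huv
    rcases huv with rfl | ⟨rfl | rfl, rfl | rfl⟩
    · rfl
    · rfl
    · exact h1
    · exact h1.symm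
    · rfl

private theorem AA_idem {a b : Fin n} : AA a b * AA a b = AA a b := by
  apply B_inj
  intro f g
  simp only [B_mul, B_AA]
  constructor
  · rintro ⟨h, ⟨h1, h2⟩, h3, h4⟩
    exact ⟨h1, fun i hi => (h2 i hi).trans (h4 i hi)⟩
  · rintro ⟨h1, h2⟩
    exact ⟨f, ⟨h1, fun i _ => rfl⟩, h1, h2⟩

private theorem pi_GG (j k s : Fin n) : IG.pi (GG j k s) = eps s * AA s k * AA k j * AA j s := by
  unfold GG
  rw [map_mul, map_mul, map_mul, IG.pi_X (eps_idem s), IG.pi_X AA_idem, IG.pi_X AA_idem,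
    IG.pi_X AA_idem]

theorem B_GG (hjk : j ≠ k) (hjs : j ≠ s) (hks : k ≠ s) (f g : Fin n → ZMod 2) :
    B (IG.pi (GG j k s)) f g ↔
      g j = f k ∧ g k = f j ∧ ∀ i, i ≠ s → i ≠ j → i ≠ k → g i = f i := by
  rw [pi_GG]
  simp only [B_mul, B_AA, B_eps]
  constructor
  · rintro ⟨f3, ⟨f2, ⟨f1, h1, h2, h3⟩, h4, h5⟩, h6, h7⟩
    refine ⟨?_, ?_, ?_⟩
    · rw [← h7 j hjs, h6, ← h5 s hjs.symm, ← h3 s hks.symm, h2, ← h1 k hks]
    · rw [← h7 k hks, ← h5 k hjk.symm, h4, ← h3 j hjk, ← h1 j hjs]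
    · intro i his hij hik
      rw [← h7 i his, ← h5 i hij, ← h3 i hik, ← h1 i his]
  · rintro ⟨h1, h2, h3⟩
    refine ⟨Function.update (Function.update (Function.update f s (f k)) k (f j)) j (f k),
      ⟨Function.update (Function.update f s (f k)) k (f j),
        ⟨Function.update f s (f k), ?_, ?_, ?_⟩, ?_, ?_⟩, ?_, ?_⟩
    · intro i hi
      rw [Function.update_of_ne hi]
    · rw [Function.update_self, Function.update_of_ne hks]
    · intro i hi
      rw [Function.update_of_ne hi]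
    · rw [Function.update_self, Function.update_of_ne hjk, Function.update_of_ne hjs]
    · intro i hi
      rw [Function.update_of_ne hi]
    · rw [Function.update_self, Function.update_of_ne hjs.symm, Function.update_of_ne hks.symm,
        Function.update_self]
    · intro i hi
      by_cases hij : i = j
      · subst hij
        rw [Function.update_self, h1]
      · by_cases hik : i = k
        · subst hik
          rw [Function.update_of_ne hij, Function.update_self, h2]
        · rw [Function.update_of_ne hij, Function.update_of_ne hik, Function.update_of_ne hi,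
            h3 i hi hij hik]

private theorem B_GG_symm (hjk : j ≠ k) (hjs : j ≠ s) (hks : k ≠ s) (f g : Fin n → ZMod 2) :
    B (IG.pi (GG j k s)) f g ↔ B (IG.pi (GG j k s)) g f := by
  rw [B_GG hjk hjs hks, B_GG hjk hjs hks]
  constructor
  · rintro ⟨h1, h2, h3⟩
    exact ⟨h2.symm, h1.symm, fun i a b c => (h3 i a b c).symm⟩
  · rintro ⟨h1, h2, h3⟩
    exact ⟨h2.symm, h1.symm, fun i a b c => (h3 i a b c).symm⟩

private theorem B_pr1 (x : Fin n) (f g : Fin n → ZMod 2) : B (pr ![x]) f g ↔ f x = g x := by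
  rw [B_pr]
  constructor
  · intro h
    exact h 0
  · intro h i
    fin_cases i
    exact h

private theorem B_pr3 (a b c : Fin n) (f g : Fin n → ZMod 2) :
    B (pr ![a, b, c]) f g ↔ f a = g a ∧ f b = g b ∧ f c = g c := by
  rw [B_pr]
  constructor
  · intro h
    exact ⟨h 0, h 1, h 2⟩
  · rintro ⟨h1, h2, h3⟩ i
    fin_cases i
    · exact h1
    · exact h2
    · exact h3

private theorem B_pr2 (a b : Fin n) (f g : Fin n → ZMod 2) :
    B (pr ![a, b]) f g ↔ f a = g a ∧ f b = g b := by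
  rw [B_pr]
  constructor
  · intro h
    exact ⟨h 0, h 1⟩
  · rintro ⟨h1, h2⟩ i
    fin_cases i
    · exact h1
    · exact h2

private theorem pr1_AA {a b : Fin n} (hab : a ≠ b) (hxb : x ≠ b) : pr ![x] * AA a b = pr ![x] := by
  apply B_inj
  intro f g
  simp only [B_mul, B_pr1, B_AA]
  constructor
  · rintro ⟨h, h1, h2, h3⟩
    exact h1.trans (h3 x hxb)
  · intro h1
    refine ⟨Function.update g b (g a), ?_, ?_, ?_⟩
    · rw [Function.update_of_ne hxb, h1]
    · rw [Function.update_self, Function.update_of_ne hab]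
    · intro i hi
      rw [Function.update_of_ne hi]

theorem e1_G (hjk : j ≠ k) (hjs : j ≠ s) (hks : k ≠ s) (hxj : x ≠ j) (hxk : x ≠ k) (hxs : x ≠ s) :
    IG.X (pr ![x]) * GG j k s = IG.X (pr ![x]) := by
  have h1 : IG.X (pr ![x]) * IG.X (eps s) = IG.X (pr ![x]) := by
    apply IG.X_mul_left (pr_idem _) (eps_idem s)
    apply pr_eps
    intro i
    fin_cases i
    exact hxs
  have h2 : IG.X (pr ![x]) * IG.X (AA s k) = IG.X (pr ![x]) :=
    IG.X_mul_left (pr_idem _) AA_idem (pr1_AA hks.symm hxk)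
  have h3 : IG.X (pr ![x]) * IG.X (AA k j) = IG.X (pr ![x]) :=
    IG.X_mul_left (pr_idem _) AA_idem (pr1_AA hjk.symm hxj)
  have h4 : IG.X (pr ![x]) * IG.X (AA j s) = IG.X (pr ![x]) :=
    IG.X_mul_left (pr_idem _) AA_idem (pr1_AA hjs hxs)
  unfold GG
  rw [← mul_assoc, ← mul_assoc, ← mul_assoc, h1, h2, h3, h4]

private theorem coc_symm {a b : Part n} (ha : ∀ f g, B a f g ↔ B a g f) (hb : ∀ f g, B b f g ↔ B b g f) :
    (coc n).m a b = (coc n).m b a := by
  have : fl a b = fl b a := by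
    apply Submodule.ext
    intro g
    change (B a 0 g ∧ B b g 0) ↔ (B b 0 g ∧ B a g 0)
    rw [ha, hb]
    exact and_comm
  change (Module.finrank (ZMod 2) (fl a b) : ℤ) = (Module.finrank (ZMod 2) (fl b a) : ℤ)
  rw [this]

private theorem B_pr_symm {r : ℕ} (a : Fin r → Fin n) (f g : Fin n → ZMod 2) :
    B (pr a) f g ↔ B (pr a) g f := by
  rw [B_pr, B_pr]
  exact ⟨fun h i => (h i).symm, fun h i => (h i).symm⟩

private theorem B_ge (hjk : j ≠ k) (hjs : j ≠ s) (hks : k ≠ s) (hyj : y ≠ j) (hyk : y ≠ k)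
    (hys : y ≠ s) (f g : Fin n → ZMod 2) :
    B (IG.pi (GG j k s) * pr ![j, k, y]) f g ↔ g j = f k ∧ g k = f j ∧ g y = f y := by
  rw [B_mul]
  simp only [B_GG hjk hjs hks, B_pr3]
  constructor
  · rintro ⟨h, ⟨h1, h2, h3⟩, h4, h5, h6⟩
    exact ⟨h4.symm.trans h1, h5.symm.trans h2, h6.symm.trans (h3 y hys hyj hyk)⟩
  · rintro ⟨h1, h2, h3⟩
    refine ⟨Function.update (Function.update f k (f j)) j (f k), ⟨?_, ?_, ?_⟩, ?_, ?_, ?_⟩
    · rw [Function.update_self]
    · rw [Function.update_of_ne hjk.symm, Function.update_self]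
    · intro i _ hij hik
      rw [Function.update_of_ne hij, Function.update_of_ne hik]
    · rw [Function.update_self, h1]
    · rw [Function.update_of_ne hjk.symm, Function.update_self, h2]
    · rw [Function.update_of_ne hyj, Function.update_of_ne hyk, h3]

private theorem B_eg (hjk : j ≠ k) (hjs : j ≠ s) (hks : k ≠ s) (hyj : y ≠ j) (hyk : y ≠ k)
    (hys : y ≠ s) (f g : Fin n → ZMod 2) :
    B (pr ![j, k, y] * IG.pi (GG j k s)) f g ↔ g j = f k ∧ g k = f j ∧ g y = f y := by
  rw [B_mul]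
  simp only [B_GG hjk hjs hks, B_pr3]
  constructor
  · rintro ⟨h, ⟨h4, h5, h6⟩, h1, h2, h3⟩
    exact ⟨h1.trans h5.symm, h2.trans h4.symm, (h3 y hys hyj hyk).trans h6.symm⟩
  · rintro ⟨h1, h2, h3⟩
    refine ⟨Function.update (Function.update g k (f k)) j (f j), ⟨?_, ?_, ?_⟩, ?_, ?_, ?_⟩
    · rw [Function.update_self]
    · rw [Function.update_of_ne hjk.symm, Function.update_self]
    · rw [Function.update_of_ne hyj, Function.update_of_ne hyk, h3]
    · rw [Function.update_of_ne hjk.symm, Function.update_self, h1]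
    · rw [Function.update_self, h2]
    · intro i _ hij hik
      rw [Function.update_of_ne hij, Function.update_of_ne hik]

private theorem ge_eq_eg (hjk : j ≠ k) (hjs : j ≠ s) (hks : k ≠ s) (hyj : y ≠ j) (hyk : y ≠ k)
    (hys : y ≠ s) : IG.pi (GG j k s) * pr ![j, k, y] = pr ![j, k, y] * IG.pi (GG j k s) := by
  apply B_inj
  intro f g
  rw [B_ge hjk hjs hks hyj hyk hys, B_eg hjk hjs hks hyj hyk hys]

private theorem gge (hjk : j ≠ k) (hjs : j ≠ s) (hks : k ≠ s) (hyj : y ≠ j) (hyk : y ≠ k)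
    (hys : y ≠ s) : IG.pi (GG j k s) * (IG.pi (GG j k s) * pr ![j, k, y]) = pr ![j, k, y] := by
  apply B_inj
  intro f g
  rw [B_mul]
  simp only [B_ge hjk hjs hks hyj hyk hys, B_GG hjk hjs hks, B_pr3]
  constructor
  · rintro ⟨h, ⟨h1, h2, h3⟩, h4, h5, h6⟩
    exact ⟨(h4.trans h2).symm, (h5.trans h1).symm, (h6.trans (h3 y hys hyj hyk)).symm⟩
  · rintro ⟨h1, h2, h3⟩
    refine ⟨Function.update (Function.update f k (f j)) j (f k), ⟨?_, ?_, ?_⟩, ?_, ?_, ?_⟩
    · rw [Function.update_self]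
    · rw [Function.update_of_ne hjk.symm, Function.update_self]
    · intro i _ hij hik
      rw [Function.update_of_ne hij, Function.update_of_ne hik]
    · rw [Function.update_of_ne hjk.symm, Function.update_self, h1]
    · rw [Function.update_self, h2]
    · rw [Function.update_of_ne hyj, Function.update_of_ne hyk, h3]

private theorem prk_ge (hjk : j ≠ k) (hjs : j ≠ s) (hks : k ≠ s) (hyj : y ≠ j) (hyk : y ≠ k)
    (hys : y ≠ s) : prk (IG.pi (GG j k s) * pr ![j, k, y]) = prk (pr ![j, k, y]) := by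
  apply le_antisymm
  · exact prk_mul_le_right _ _
  · conv_lhs => rw [← gge hjk hjs hks hyj hyk hys]
    exact prk_mul_le_right _ _

private theorem inj3 {a b c : Fin n} (hab : a ≠ b) (hca : c ≠ a) (hcb : c ≠ b) :
    Function.Injective ![a, b, c] := by
  intro u v huv
  fin_cases u <;> fin_cases v <;> simp_all

/-- used with `y` and with `x` -/
theorem G_e (hn : 5 ≤ n) (hjk : j ≠ k) (hjs : j ≠ s) (hks : k ≠ s) (hyj : y ≠ j) (hyk : y ≠ k)
    (hys : y ≠ s) : GG j k s * IG.X (pr ![j, k, y]) = IG.X (pr ![j, k, y]) * GG j k s := by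
  have hrk : IsRank (prk : Part n → ℕ) := isRank_prk
  have he : pr ![j, k, y] * pr ![j, k, y] = pr ![j, k, y] := pr_idem _
  have h1 := prk_ge hjk hjs hks hyj hyk hys
  have h2 := ge_eq_eg hjk hjs hks hyj hyk hys
  refine low_eq (r := 3) (by omega) ?_ ?_ ?_ ?_
  · apply IsReg.mul_left hrk (isReg_X hrk he)
    rw [map_mul, IG.pi_X he]
    exact h1
  · apply IsReg.mul_right hrk (isReg_X hrk he)
    rw [map_mul, IG.pi_X he, ← h2]
    exact h1
  · rw [map_mul, IG.pi_X he, h1]
    exact prk_pr (inj3 hjk hyj hyk)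
  · rw [map_mul, map_mul, zeta_X (coc n) he]
    have hc : (coc n).m (IG.pi (GG j k s)) (pr ![j, k, y]) =
        (coc n).m (pr ![j, k, y]) (IG.pi (GG j k s)) :=
      coc_symm (B_GG_symm hjk hjs hks) (B_pr_symm _)
    ext
    · change (zeta (coc n) (GG j k s)).fst * pr ![j, k, y] = pr ![j, k, y] * (zeta (coc n) (GG j k s)).fst
      rw [zeta_fst]
      exact h2
    · simp only [Ext.mul_snd, Ext.idem_fst, Ext.idem_snd, zeta_fst, hc]
      ring

theorem G_e1 (hn : 5 ≤ n) (hjk : j ≠ k) (hjs : j ≠ s) (hks : k ≠ s) (hxj : x ≠ j) (hxk : x ≠ k)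
    (hxs : x ≠ s) : GG j k s * IG.X (pr ![x]) = IG.X (pr ![x]) := by
  have hrk : IsRank (prk : Part n → ℕ) := isRank_prk
  have he : pr ![x] * pr ![x] = pr ![x] := pr_idem _
  have h2 : IG.pi (GG j k s) * pr ![x] = pr ![x] := by
    apply B_inj
    intro f g
    rw [B_mul]
    simp only [B_GG hjk hjs hks, B_pr1]
    constructor
    · rintro ⟨h, ⟨h1, h2, h3⟩, h4⟩
      exact (h3 x hxs hxj hxk).symm.trans h4
    · intro h1
      refine ⟨Function.update (Function.update f k (f j)) j (f k), ⟨?_, ?_, ?_⟩, ?_⟩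
      · rw [Function.update_self]
      · rw [Function.update_of_ne hjk.symm, Function.update_self]
      · intro i _ hij hik
        rw [Function.update_of_ne hij, Function.update_of_ne hik]
      · rw [Function.update_of_ne hxj, Function.update_of_ne hxk, h1]
  have hinj : Function.Injective ![x] := by
    intro u v _
    exact Subsingleton.elim u v
  refine low_eq (r := 1) (by omega) ?_ (isReg_X hrk he) ?_ ?_
  · apply IsReg.mul_left hrk (isReg_X hrk he)
    rw [map_mul, IG.pi_X he, h2]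
  · rw [map_mul, IG.pi_X he, h2]
    exact prk_pr hinj
  · have hc : (coc n).m (IG.pi (GG j k s)) (pr ![x]) = (coc n).m (pr ![x]) (IG.pi (GG j k s)) :=
      coc_symm (B_GG_symm hjk hjs hks) (B_pr_symm _)
    have h3 := congrArg (fun z => (zeta (coc n) z).snd) (e1_G hjk hjs hks hxj hxk hxs)
    simp only [map_mul, zeta_X (coc n) he, Ext.mul_snd, Ext.idem_fst, Ext.idem_snd, zeta_fst] at h3
    rw [map_mul, zeta_X (coc n) he]
    ext
    · change (zeta (coc n) (GG j k s)).fst * pr ![x] = pr ![x]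
      rw [zeta_fst]
      exact h2
    · simp only [Ext.mul_snd, Ext.idem_fst, Ext.idem_snd, zeta_fst, hc]
      linarith

private theorem prk0 : prk (pr (n := n) ![]) = 0 := by
  apply prk_pr
  intro u
  exact u.elim0

private theorem prk1 (x : Fin n) : prk (pr ![x]) = 1 := by
  apply prk_pr
  intro u v _
  exact Subsingleton.elim u v

private theorem B_pr0 (f g : Fin n → ZMod 2) : B (pr (n := n) ![]) f g := by
  rw [B_pr]
  intro i
  exact i.elim0

theorem drop_ee (hjk : j ≠ k) (hxj : x ≠ j) (hxk : x ≠ k) (hyj : y ≠ j) (hyk : y ≠ k) (hxy : x ≠ y) :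
    Drop (prk : Part n → ℕ) (pr ![j, k, y]) (pr ![j, k, x]) := by
  have h1 : pr ![j, k, y] * pr ![j, k, x] = pr ![j, k] := by
    apply B_inj
    intro f g
    rw [B_mul]
    simp only [B_pr3, B_pr2]
    constructor
    · rintro ⟨h, ⟨h1, h2, _⟩, h4, h5, _⟩
      exact ⟨h1.trans h4, h2.trans h5⟩
    · rintro ⟨h1, h2⟩
      refine ⟨Function.update f x (g x), ⟨?_, ?_, ?_⟩, ?_, ?_, ?_⟩
      · rw [Function.update_of_ne hxj.symm]
      · rw [Function.update_of_ne hxk.symm]
      · rw [Function.update_of_ne hxy.symm]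
      · rw [Function.update_of_ne hxj.symm, h1]
      · rw [Function.update_of_ne hxk.symm, h2]
      · rw [Function.update_self]
  have h2 : prk (pr ![j, k]) = 2 := by
    apply prk_pr
    intro u v huv
    fin_cases u <;> fin_cases v <;> simp_all
  unfold Drop
  rw [h1, h2, prk_pr (inj3 hjk hyj hyk), prk_pr (inj3 hjk hxj hxk)]
  omega

theorem drop_ee1 (hjk : j ≠ k) (hxj : x ≠ j) (hxk : x ≠ k) (hyj : y ≠ j) (hyk : y ≠ k) (hxy : x ≠ y) :
    Drop (prk : Part n → ℕ) (pr ![j, k, y]) (pr ![x]) := by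
  have h1 : pr ![j, k, y] * pr ![x] = pr (n := n) ![] := by
    apply B_inj
    intro f g
    rw [B_mul]
    simp only [B_pr3, B_pr1]
    constructor
    · intro _
      exact B_pr0 f g
    · intro _
      refine ⟨Function.update f x (g x), ⟨?_, ?_, ?_⟩, ?_⟩
      · rw [Function.update_of_ne hxj.symm]
      · rw [Function.update_of_ne hxk.symm]
      · rw [Function.update_of_ne hxy.symm]
      · rw [Function.update_self]
  unfold Drop
  rw [h1, prk0, prk_pr (inj3 hjk hyj hyk), prk1]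
  omega

theorem drop_e1e (hjk : j ≠ k) (hxj : x ≠ j) (hxk : x ≠ k) (hyj : y ≠ j) (hyk : y ≠ k) (hxy : x ≠ y) :
    Drop (prk : Part n → ℕ) (pr ![x]) (pr ![j, k, y]) := by
  have h1 : pr ![x] * pr ![j, k, y] = pr (n := n) ![] := by
    apply B_inj
    intro f g
    rw [B_mul]
    simp only [B_pr3, B_pr1]
    constructor
    · intro _
      exact B_pr0 f g
    · intro _
      refine ⟨Function.update g x (f x), ?_, ?_, ?_, ?_⟩
      · rw [Function.update_self]
      · rw [Function.update_of_ne hxj.symm]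
      · rw [Function.update_of_ne hxk.symm]
      · rw [Function.update_of_ne hxy.symm]
  unfold Drop
  rw [h1, prk0, prk_pr (inj3 hjk hyj hyk), prk1]
  omega

end Pool.Agent.IGQ
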