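import Pool.Agent.IGQ.NF

/-! MP_e3ace9_al, Q1.  Finite complete rewriting systems: the definitions for semigroups and for
monoids, and the transfer to lists. -/

namespace Pool.Agent.IGQ

open Relation

/-- One step of rewriting in a free semigroup (or free monoid) `M`: a factor `l` of a word is
replaced by `r`, where `l → r` is a rule, `(l, r) ∈ R`. -/
inductive RStep {M : Type} [Mul M] (R : Set (M × M)) : M → M → Prop
  | rule (l r : M) (h : (l, r) ∈ R) : RStep R l r
  | mul_left (w u v : M) (h : RStep R u v) : RStep R (w * u) (w * v)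
  | mul_right (w u v : M) (h : RStep R u v) : RStep R (u * w) (v * w)

/-- The rewriting system `R` is terminating: there is no infinite sequence of steps. -/
def Terminating {M : Type} [Mul M] (R : Set (M × M)) : Prop :=
  ¬ ∃ s : ℕ → M, ∀ i, RStep R (s i) (s (i + 1))

/-- The rewriting system `R` is confluent: if `u` rewrites to `v` and to `w` (in any number of steps)
then `v` and `w` rewrite to a common word. -/
def Confluent {M : Type} [Mul M] (R : Set (M × M)) : Prop :=
  ∀ u v w, ReflTransGen (RStep R) u v → ReflTransGen (RStep R) u w →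
    ∃ z, ReflTransGen (RStep R) v z ∧ ReflTransGen (RStep R) w z

/-- The semigroup `T` admits a finite complete rewriting system: a finite alphabet `A` and a finite
terminating confluent set `R` of rules between nonempty words over `A` such that `T` is isomorphic
to the quotient of the free semigroup `A⁺` by the congruence generated by `R`. -/
def HasFCRS (T : Type) [Semigroup T] : Prop :=
  ∃ (A : Type) (_ : Finite A) (R : Set (FreeSemigroup A × FreeSemigroup A)),
    R.Finite ∧ Terminating R ∧ Confluent R ∧
      Nonempty ((conGen fun u v => (u, v) ∈ R).Quotient ≃* T)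

/-- The same for monoids: the words may be empty, and `T` is a quotient of the free monoid. -/
def HasMonoidFCRS (T : Type) [Monoid T] : Prop :=
  ∃ (A : Type) (_ : Finite A) (R : Set (FreeMonoid A × FreeMonoid A)),
    R.Finite ∧ Terminating R ∧ Confluent R ∧
      Nonempty ((conGen fun u v => (u, v) ∈ R).Quotient ≃* T)

/-- a complete rewriting system for `T` in terms of lists -/
structure LSys (T : Type) [Monoid T] where
  A : Type
  fin : Finite A
  val : A → T
  R : List A → List A → Prop
  K : ℕ
  len : ∀ l r, R l r → 2 * l.length ≤ K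
  sound : ∀ l r, R l r → (l.map val).prod = (r.map val).prod
  wf : WellFounded (fun w' w => Red R w w')
  conf : ∀ u v w, ReflTransGen (Red R) u v → ReflTransGen (Red R) u w →
    ∃ z, ReflTransGen (Red R) v z ∧ ReflTransGen (Red R) w z
  complete : ∀ U V : List A, U ≠ [] → V ≠ [] → (U.map val).prod = (V.map val).prod →
    EqvGen (Red R) U V
  surj : ∀ t, ∃ U : List A, (U.map val).prod = t

theorem wf_of_terminating {M : Type} [Mul M] {R : Set (M × M)} (h : Terminating R) :
    WellFounded (fun v u => RStep R u v) := by
  rw [wellFounded_iff_isEmpty_descending_chain]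
  refine ⟨fun ⟨s, hs⟩ => h ⟨s, hs⟩⟩

/-- the congruence generated by `R` is the equivalence generated by the steps -/
theorem eqvGen_of_conGen {M : Type} [Mul M] {R : Set (M × M)} {u v : M}
    (h : conGen (fun u v => (u, v) ∈ R) u v) : EqvGen (RStep R) u v := by
  have key_l : ∀ (w u v : M), EqvGen (RStep R) u v → EqvGen (RStep R) (w * u) (w * v) := by
    intro w u v h
    induction h with
    | rel u v h => exact EqvGen.rel _ _ (RStep.mul_left _ _ _ h)
    | refl u => exact EqvGen.refl _
    | symm u v _ ih => exact EqvGen.symm _ _ ih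
    | trans u v z _ _ ih1 ih2 => exact EqvGen.trans _ _ _ ih1 ih2
  have key_r : ∀ (w u v : M), EqvGen (RStep R) u v → EqvGen (RStep R) (u * w) (v * w) := by
    intro w u v h
    induction h with
    | rel u v h => exact EqvGen.rel _ _ (RStep.mul_right _ _ _ h)
    | refl u => exact EqvGen.refl _
    | symm u v _ ih => exact EqvGen.symm _ _ ih
    | trans u v z _ _ ih1 ih2 => exact EqvGen.trans _ _ _ ih1 ih2
  let c : Con M :=
    { r := EqvGen (RStep R)
      iseqv := EqvGen.is_equivalence _
      mul' := by
        intro a b a' b' h1 h2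
        exact EqvGen.trans _ _ _ (key_r _ _ _ h1) (key_l _ _ _ h2) }
  have hle : conGen (fun u v => (u, v) ∈ R) ≤ c := by
    refine Con.conGen_le.2 ?_
    intro a b hab
    exact EqvGen.rel _ _ (RStep.rule _ _ hab)
  exact hle h

theorem conGen_of_step {M : Type} [Mul M] {R : Set (M × M)} {u v : M} (h : RStep R u v) :
    conGen (fun u v => (u, v) ∈ R) u v := by
  induction h with
  | rule l r h => exact ConGen.Rel.of _ _ h
  | mul_left w u v _ ih => exact (conGen _).mul ((conGen _).refl w) ih
  | mul_right w u v _ ih => exact (conGen _).mul ih ((conGen _).refl w)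

/-! ### semigroups -/

section semigroup

variable {A : Type}

/-- the list of letters of a word -/
def tl (w : FreeSemigroup A) : List A := w.head :: w.tail

theorem tl_mul (u v : FreeSemigroup A) : tl (u * v) = tl u ++ tl v := rfl

theorem tl_ne (u : FreeSemigroup A) : tl u ≠ [] := by simp [tl]

theorem tl_inj {u v : FreeSemigroup A} (h : tl u = tl v) : u = v := by
  cases u; cases v
  simpa [tl] using h

theorem exists_tl {w : List A} (h : w ≠ []) : ∃ u : FreeSemigroup A, tl u = w := by
  cases w with
  | nil => exact absurd rfl h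
  | cons a w => exact ⟨⟨a, w⟩, rfl⟩

/-- the rules as pairs of lists -/
def LR (R : Set (FreeSemigroup A × FreeSemigroup A)) (l r : List A) : Prop :=
  ∃ l' r', (l', r') ∈ R ∧ l = tl l' ∧ r = tl r'

theorem red_of_step {R : Set (FreeSemigroup A × FreeSemigroup A)} {u v : FreeSemigroup A}
    (h : RStep R u v) : Red (LR R) (tl u) (tl v) := by
  induction h with
  | rule l r h =>
    have := Red.mk (R := LR R) [] (tl l) (tl r) [] ⟨l, r, h, rfl, rfl⟩
    simpa using this
  | mul_left w u v _ ih =>
    have := ih.ctx (tl w) []
    simpa [tl_mul] using this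
  | mul_right w u v _ ih =>
    have := ih.ctx [] (tl w)
    simpa [tl_mul] using this

theorem step_of_red {R : Set (FreeSemigroup A × FreeSemigroup A)} {u : FreeSemigroup A} {w : List A}
    (h : Red (LR R) (tl u) w) : ∃ v, w = tl v ∧ RStep R u v := by
  generalize hu : tl u = w0 at h
  cases h with
  | mk x l r y h =>
    obtain ⟨l', r', h1, rfl, rfl⟩ := h
    rcases x with _ | ⟨a, x⟩
    · rcases y with _ | ⟨b, y⟩
      · have : u = l' := tl_inj (by simpa using hu)
        subst this
        exact ⟨r', by simp, RStep.rule _ _ h1⟩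
      · have : u = l' * ⟨b, y⟩ := tl_inj (by rw [tl_mul, hu]; simp [tl])
        subst this
        exact ⟨r' * ⟨b, y⟩, by rw [tl_mul]; simp [tl], RStep.mul_right _ _ _ (RStep.rule _ _ h1)⟩
    · rcases y with _ | ⟨b, y⟩
      · have : u = ⟨a, x⟩ * l' := tl_inj (by rw [tl_mul, hu]; simp [tl])
        subst this
        exact ⟨⟨a, x⟩ * r', by rw [tl_mul]; simp [tl], RStep.mul_left _ _ _ (RStep.rule _ _ h1)⟩
      · have : u = ⟨a, x⟩ * l' * ⟨b, y⟩ := tl_inj (by rw [tl_mul, tl_mul, hu]; simp [tl])
        subst this
        exact ⟨⟨a, x⟩ * r' * ⟨b, y⟩, by rw [tl_mul, tl_mul]; simp [tl],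
          RStep.mul_right _ _ _ (RStep.mul_left _ _ _ (RStep.rule _ _ h1))⟩

theorem reds_of_steps {R : Set (FreeSemigroup A × FreeSemigroup A)} {u v : FreeSemigroup A}
    (h : ReflTransGen (RStep R) u v) : ReflTransGen (Red (LR R)) (tl u) (tl v) := by
  induction h with
  | refl => exact .refl
  | tail _ h ih => exact ih.tail (red_of_step h)

theorem steps_of_reds {R : Set (FreeSemigroup A × FreeSemigroup A)} {u : FreeSemigroup A}
    {w : List A} (h : ReflTransGen (Red (LR R)) (tl u) w) :
    ∃ v, w = tl v ∧ ReflTransGen (RStep R) u v := by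
  induction h with
  | refl => exact ⟨u, rfl, .refl⟩
  | tail _ h ih =>
    obtain ⟨v, rfl, hv⟩ := ih
    obtain ⟨v', rfl, hv'⟩ := step_of_red h
    exact ⟨v', rfl, hv.tail hv'⟩

theorem not_red_nil {R : Set (FreeSemigroup A × FreeSemigroup A)} {w : List A} :
    ¬ Red (LR R) [] w := by
  intro h
  generalize hu : ([] : List A) = w0 at h
  cases h with
  | mk x l r y h =>
    obtain ⟨l', r', h1, rfl, rfl⟩ := h
    simp [tl] at hu

theorem eqv_red {R : Set (FreeSemigroup A × FreeSemigroup A)} {u v : FreeSemigroup A}
    (h : EqvGen (RStep R) u v) : EqvGen (Red (LR R)) (tl u) (tl v) := by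
  induction h with
  | rel u v h => exact EqvGen.rel _ _ (red_of_step h)
  | refl u => exact EqvGen.refl _
  | symm u v _ ih => exact EqvGen.symm _ _ ih
  | trans u v z _ _ ih1 ih2 => exact EqvGen.trans _ _ _ ih1 ih2

end semigroup

theorem HasFCRS.lsys {T : Type} [Monoid T] (h : HasFCRS T) : Nonempty (LSys T) := by
  classical
  obtain ⟨A, hA, R, hR, ht, hc, ⟨e⟩⟩ := h
  let cl : FreeSemigroup A → T := fun u => e (u : (conGen fun u v => (u, v) ∈ R).Quotient)
  have cl_mul : ∀ u v, cl (u * v) = cl u * cl v := by
    intro u v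
    simp only [cl]
    rw [Con.coe_mul, map_mul]
  let val : A → T := fun a => cl (FreeSemigroup.of a)
  have hval : ∀ u : FreeSemigroup A, ((tl u).map val).prod = cl u := by
    intro u
    induction u using FreeSemigroup.recOnMul with
    | ih1 a => simp [tl, FreeSemigroup.of, val]
    | ih2 a u h1 h2 =>
      rw [tl_mul, List.map_append, List.prod_append, h1, h2, cl_mul]
  have hwf := wf_of_terminating ht
  refine ⟨⟨A, hA, val, LR R, hR.toFinset.sup (fun p => 2 * (tl p.1).length), ?_, ?_, ?_, ?_, ?_,
    ?_⟩⟩
  · rintro l r ⟨l', r', h1, rfl, rfl⟩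
    exact Finset.le_sup (f := fun p : FreeSemigroup A × FreeSemigroup A => 2 * (tl p.1).length)
      (hR.mem_toFinset.2 h1)
  · rintro l r ⟨l', r', h1, rfl, rfl⟩
    rw [hval, hval]
    simp only [cl]
    congr 1
    exact (Con.eq _).2 (ConGen.Rel.of _ _ h1)
  · refine ⟨fun w => ?_⟩
    by_cases hw : w = []
    · subst hw
      exact ⟨_, fun y hy => absurd hy not_red_nil⟩
    · obtain ⟨u, rfl⟩ := exists_tl hw
      induction u using hwf.induction with
      | h u ih =>
        refine ⟨_, fun y hy => ?_⟩
        obtain ⟨v, rfl, hv⟩ := step_of_red hy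
        exact ih v hv (tl_ne v)
  · intro u v w h1 h2
    by_cases hu : u = []
    · subst hu
      have h3 : ∀ v, ReflTransGen (Red (LR R)) [] v → v = [] := by
        intro v hv
        rcases ReflTransGen.cases_head hv with h | ⟨p, hp, _⟩
        · exact h.symm
        · exact absurd hp not_red_nil
      rw [h3 v h1, h3 w h2]
      exact ⟨[], .refl, .refl⟩
    · obtain ⟨u, rfl⟩ := exists_tl hu
      obtain ⟨v, rfl, hv⟩ := steps_of_reds h1
      obtain ⟨w, rfl, hw⟩ := steps_of_reds h2
      obtain ⟨z, hz1, hz2⟩ := hc u v w hv hw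
      exact ⟨tl z, reds_of_steps hz1, reds_of_steps hz2⟩
  · intro U V hU hV h
    obtain ⟨U, rfl⟩ := exists_tl hU
    obtain ⟨V, rfl⟩ := exists_tl hV
    rw [hval, hval] at h
    have h1 := e.injective h
    exact eqv_red (eqvGen_of_conGen ((Con.eq _).1 h1))
  · intro t
    obtain ⟨q, hq⟩ := e.surjective t
    induction q using Con.induction_on with
    | H u => exact ⟨tl u, by rw [hval]; exact hq⟩

/-! ### monoids -/

theorem red_iff {A : Type} {R : Set (FreeMonoid A × FreeMonoid A)} {u v : List A} :
    RStep R (FreeMonoid.ofList u) (FreeMonoid.ofList v) ↔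
      Red (fun l r => (FreeMonoid.ofList l, FreeMonoid.ofList r) ∈ R) u v := by
  constructor
  · intro h
    have key : ∀ u v : FreeMonoid A, RStep R u v →
        Red (fun l r => (FreeMonoid.ofList l, FreeMonoid.ofList r) ∈ R) u.toList v.toList := by
      intro u v h
      induction h with
      | rule l r h =>
        have := Red.mk (R := fun l r => (FreeMonoid.ofList l, FreeMonoid.ofList r) ∈ R)
          [] l.toList r.toList [] h
        simpa using this
      | mul_left w u v _ ih =>
        have := ih.ctx w.toList []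
        simpa [FreeMonoid.toList_mul] using this
      | mul_right w u v _ ih =>
        have := ih.ctx [] w.toList
        simpa [FreeMonoid.toList_mul] using this
    exact key _ _ h
  · intro h
    cases h with
    | mk x l r y h =>
      rw [FreeMonoid.ofList_append, FreeMonoid.ofList_append, FreeMonoid.ofList_append,
        FreeMonoid.ofList_append]
      exact RStep.mul_right _ _ _ (RStep.mul_left _ _ _ (RStep.rule _ _ h))

theorem reds_iff {A : Type} {R : Set (FreeMonoid A × FreeMonoid A)} {u v : List A} :
    ReflTransGen (RStep R) (FreeMonoid.ofList u) (FreeMonoid.ofList v) ↔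
      ReflTransGen (Red (fun l r => (FreeMonoid.ofList l, FreeMonoid.ofList r) ∈ R)) u v := by
  constructor
  · intro h
    have key : ∀ v : FreeMonoid A, ReflTransGen (RStep R) (FreeMonoid.ofList u) v →
        ReflTransGen (Red (fun l r => (FreeMonoid.ofList l, FreeMonoid.ofList r) ∈ R)) u
          v.toList := by
      intro v h
      induction h with
      | refl => exact .refl
      | tail _ h ih => exact ih.tail (red_iff.1 h)
    exact key _ h
  · intro h
    induction h with
    | refl => exact .refl
    | tail _ h ih => exact ih.tail (red_iff.2 h)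

theorem HasMonoidFCRS.lsys {T : Type} [Monoid T] (h : HasMonoidFCRS T) : Nonempty (LSys T) := by
  classical
  obtain ⟨A, hA, R, hR, ht, hc, ⟨e⟩⟩ := h
  let cl : FreeMonoid A → T := fun u => e (u : (conGen fun u v => (u, v) ∈ R).Quotient)
  have cl_mul : ∀ u v, cl (u * v) = cl u * cl v := by
    intro u v
    simp only [cl]
    rw [Con.coe_mul, map_mul]
  have cl_one : cl 1 = 1 := by
    simp only [cl]
    rw [Con.coe_one, map_one]
  let val : A → T := fun a => cl (FreeMonoid.of a)
  have hval : ∀ u : List A, (u.map val).prod = cl (FreeMonoid.ofList u) := by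
    intro u
    induction u with
    | nil => rw [FreeMonoid.ofList_nil, cl_one]; rfl
    | cons a u ih => rw [FreeMonoid.ofList_cons, cl_mul, ← ih, List.map_cons, List.prod_cons]
  have hwf := wf_of_terminating ht
  refine ⟨⟨A, hA, val, fun l r => (FreeMonoid.ofList l, FreeMonoid.ofList r) ∈ R,
    hR.toFinset.sup (fun p => 2 * p.1.toList.length), ?_, ?_, ?_, ?_, ?_, ?_⟩⟩
  · intro l r h1
    exact Finset.le_sup (f := fun p : FreeMonoid A × FreeMonoid A => 2 * p.1.toList.length)
      (hR.mem_toFinset.2 h1)
  · intro l r h1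
    rw [hval, hval]
    simp only [cl]
    congr 1
    exact (Con.eq _).2 (ConGen.Rel.of _ _ h1)
  · refine ⟨fun w => ?_⟩
    induction w using hwf.induction with
    | h u ih => exact ⟨_, fun y hy => ih y (red_iff.2 hy)⟩
  · intro u v w h1 h2
    obtain ⟨z, hz1, hz2⟩ := hc _ _ _ (reds_iff.2 h1) (reds_iff.2 h2)
    exact ⟨z.toList, reds_iff.1 hz1, reds_iff.1 hz2⟩
  · intro U V _ _ h
    rw [hval, hval] at h
    have h1 := eqvGen_of_conGen ((Con.eq _).1 (e.injective h))
    have key : ∀ u v : FreeMonoid A, EqvGen (RStep R) u v →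
        EqvGen (Red (fun l r => (FreeMonoid.ofList l, FreeMonoid.ofList r) ∈ R))
          u.toList v.toList := by
      intro u v h
      induction h with
      | rel u v h => exact EqvGen.rel _ _ (red_iff.1 h)
      | refl u => exact EqvGen.refl _
      | symm u v _ ih => exact EqvGen.symm _ _ ih
      | trans u v z _ _ ih1 ih2 => exact EqvGen.trans _ _ _ ih1 ih2
    exact key _ _ h1
  · intro t
    obtain ⟨q, hq⟩ := e.surjective t
    induction q using Con.induction_on with
    | H u => exact ⟨u.toList, by rw [hval]; exact hq⟩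

end Pool.Agent.IGQ
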