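import Pool.Agent.IGQ.Col
import Pool.Agent.IGP.Reg

/-! MP_e3ace9_al, Q1.  The invariant of long floating components: `(u, i, v)` is a marked word over the
idempotents.  `InvL`: the component of `i` does not reach the first row of the picture, and the part of
the word before its first row is a regular element of `IG`.  `InvR` is the dual.  Both are invariant
under the defining relations and under connectedness. -/

namespace Pool.Agent.IGQ

open Pool.Agent.IGP Pool.Agent.IGP.Part

variable {n : ℕ}


/-- the component of the point `i` between `s` and `y` reaches the row above `s` -/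
def RT (s y : Part n) (i : Fin n) : Prop := ∀ g f, B s 0 g → B y g f → g i = 0

/-- the component of the point `i` between `x` and `s` reaches the row below `s` -/
def RB (x s : Part n) (i : Fin n) : Prop := ∀ f g, B x f g → B s g 0 → g i = 0

theorem RT_mono {s t y : Part n} {i : Fin n} (h : RT (s * t) y i) : RT t y i := by
  intro g f h1 h2
  exact h g f ((B_mul _ _ _ _).2 ⟨0, B_zero s, h1⟩) h2

theorem RB_mono {x s t : Part n} {i : Fin n} (h : RB x (s * t) i) : RB x s i := by
  intro f g h1 h2
  exact h f g h1 ((B_mul _ _ _ _).2 ⟨0, h2, B_zero t⟩)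

theorem RT_one (y : Part n) (i : Fin n) : RT 1 y i := by
  intro g f h1 _
  rw [B_one] at h1
  rw [← h1]
  rfl

theorem RB_one (x : Part n) (i : Fin n) : RB x 1 i := by
  intro f g _ h1
  rw [B_one] at h1
  rw [h1]
  rfl

theorem RT_CS {x a s y : Part n} {i j : Fin n} (h : CS (x * a) s y i j) :
    RT a (s * y) i ↔ RT (a * s) y j := by
  constructor
  · intro h1 g f h2 h3
    obtain ⟨k, hk1, hk2⟩ := (B_mul _ _ _ _).1 h2
    have h4 := h 0 k g f ((B_mul _ _ _ _).2 ⟨0, B_zero x, hk1⟩) hk2 h3
    rw [← h4]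
    exact h1 k f hk1 ((B_mul _ _ _ _).2 ⟨g, hk2, h3⟩)
  · intro h1 g f h2 h3
    obtain ⟨k, hk1, hk2⟩ := (B_mul _ _ _ _).1 h3
    have h4 := h 0 g k f ((B_mul _ _ _ _).2 ⟨0, B_zero x, h2⟩) hk1 hk2
    rw [h4]
    exact h1 k f ((B_mul _ _ _ _).2 ⟨g, h2, hk1⟩) hk2

theorem RB_CS {x s b y : Part n} {i j : Fin n} (h : CS x s (b * y) i j) :
    RB x (s * b) i ↔ RB (x * s) b j := by
  constructor
  · intro h1 f g h2 h3
    obtain ⟨k, hk1, hk2⟩ := (B_mul _ _ _ _).1 h2
    have h4 := h f k g 0 hk1 hk2 ((B_mul _ _ _ _).2 ⟨0, h3, B_zero y⟩)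
    rw [← h4]
    exact h1 f k hk1 ((B_mul _ _ _ _).2 ⟨g, hk2, h3⟩)
  · intro h1 f g h2 h3
    obtain ⟨k, hk1, hk2⟩ := (B_mul _ _ _ _).1 h3
    have h4 := h f g k 0 h2 hk1 ((B_mul _ _ _ _).2 ⟨0, hk2, B_zero y⟩)
    rw [h4]
    exact h1 f k ((B_mul _ _ _ _).2 ⟨g, h2, hk1⟩) hk2

theorem RT_of_CS {x s y : Part n} {i j : Fin n} (h : CS x s y i j) : RT s y j := by
  intro g f h1 h2
  rw [← h 0 0 g f (B_zero x) h1 h2]
  rfl

theorem RB_of_CS {x s y : Part n} {i j : Fin n} (h : CS x s y i j) : RB x s i := by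
  intro f g h1 h2
  rw [h f g 0 0 h1 h2 (B_zero y)]
  rfl

/-! ### the key lemmas -/

theorem keyT {e f s y : Part n} {i : Fin n} (he : e * e = e) (hf : f * f = f) (hb : IsBasic e f)
    (h1 : RT (f * s) y i) (h2 : ¬ RT (e * (f * s)) y i) : (e * f) * e = e := by
  rcases hb with h | h | h | h
  · rw [h, he]
  · exfalso
    rw [← mul_assoc, h] at h2
    exact h2 h1
  · rw [mul_assoc, h, he]
  · exfalso
    apply h2
    intro g k hg hk
    rw [← mul_assoc] at hg
    obtain ⟨l, hl1, hl2⟩ := (B_mul _ _ _ _).1 hg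
    refine h1 g k ((B_mul _ _ _ _).2 ⟨l, ?_, hl2⟩) hk
    have h3 : f = f * (e * f) := by rw [← mul_assoc, h, hf]
    rw [h3]
    exact (B_mul _ _ _ _).2 ⟨0, B_zero f, hl1⟩

theorem keyB {x s e f : Part n} {i : Fin n} (he : e * e = e) (hf : f * f = f) (hb : IsBasic e f)
    (h1 : RB x (s * e) i) (h2 : ¬ RB x (s * e * f) i) : f * (e * f) = f := by
  rcases hb with h | h | h | h
  · exfalso
    rw [mul_assoc, h] at h2
    exact h2 h1
  · rw [h, hf]
  · exfalso
    apply h2
    intro k g hk hg
    rw [mul_assoc] at hg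
    obtain ⟨l, hl1, hl2⟩ := (B_mul _ _ _ _).1 hg
    refine h1 k g hk ((B_mul _ _ _ _).2 ⟨l, hl1, ?_⟩)
    have h3 : e = (e * f) * e := by rw [mul_assoc, h, he]
    rw [h3]
    exact (B_mul _ _ _ _).2 ⟨0, hl2, B_zero e⟩
  · rw [← mul_assoc, h, hf]

theorem regR {p : List (Idem (Part n))} {e f g : Idem (Part n)} (hb : IsBasic e.1 f.1)
    (hg : g.1 = e.1 * f.1) (hge : g.1 * e.1 = e.1) :
    IsReg (prk : Part n → ℕ) (IG.word (p ++ [e])) ↔ IsReg (prk : Part n → ℕ) (IG.word (p ++ [g])) := by
  have h1 : IG.word (p ++ [g]) = IG.word (p ++ [e]) * IG.x f := by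
    simp only [IG.word_append, IG.word_cons, IG.word_nil, mul_one]
    rw [mul_assoc, IG.x_mul e f g hb hg]
  have h2 : IG.word (p ++ [e]) = IG.word (p ++ [g]) * IG.x e := by
    simp only [IG.word_append, IG.word_cons, IG.word_nil, mul_one]
    rw [mul_assoc, IG.x_mul g e e (Or.inr (Or.inl hge)) hge.symm]
  have h3 : (prk : Part n → ℕ) (IG.pi (IG.word (p ++ [e]) * IG.x f)) ≤ (prk : Part n → ℕ) (IG.pi (IG.word (p ++ [e]))) := by
    rw [map_mul]
    exact prk_mul_le_left _ _
  have h4 : (prk : Part n → ℕ) (IG.pi (IG.word (p ++ [g]) * IG.x e)) ≤ (prk : Part n → ℕ) (IG.pi (IG.word (p ++ [g]))) := by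
    rw [map_mul]
    exact prk_mul_le_left _ _
  rw [← h1] at h3
  rw [← h2] at h4
  constructor
  · intro h
    rw [h1]
    exact h.mul_right isRank_prk (by rw [← h1]; exact le_antisymm h3 h4)
  · intro h
    rw [h2]
    exact h.mul_right isRank_prk (by rw [← h2]; exact le_antisymm h4 h3)

theorem regL {q : List (Idem (Part n))} {e f g : Idem (Part n)} (hb : IsBasic e.1 f.1)
    (hg : g.1 = e.1 * f.1) (hfg : f.1 * g.1 = f.1) :
    IsReg (prk : Part n → ℕ) (IG.word (f :: q)) ↔ IsReg (prk : Part n → ℕ) (IG.word (g :: q)) := by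
  have h1 : IG.word (g :: q) = IG.x e * IG.word (f :: q) := by
    simp only [IG.word_cons]
    rw [← mul_assoc, IG.x_mul e f g hb hg]
  have h2 : IG.word (f :: q) = IG.x f * IG.word (g :: q) := by
    simp only [IG.word_cons]
    rw [← mul_assoc, IG.x_mul f g f (Or.inl hfg) hfg.symm]
  have h3 : (prk : Part n → ℕ) (IG.pi (IG.x e * IG.word (f :: q))) ≤ (prk : Part n → ℕ) (IG.pi (IG.word (f :: q))) := by
    rw [map_mul]
    exact prk_mul_le_right _ _
  have h4 : (prk : Part n → ℕ) (IG.pi (IG.x f * IG.word (g :: q))) ≤ (prk : Part n → ℕ) (IG.pi (IG.word (g :: q))) := by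
    rw [map_mul]
    exact prk_mul_le_right _ _
  rw [← h1] at h3
  rw [← h2] at h4
  constructor
  · intro h
    rw [h1]
    exact h.mul_left isRank_prk (by rw [← h1]; exact le_antisymm h3 h4)
  · intro h
    rw [h2]
    exact h.mul_left isRank_prk (by rw [← h2]; exact le_antisymm h4 h3)

/-! ### the invariants -/

def InvL (u v : List (Idem (Part n))) (i : Fin n) : Prop :=
  ¬ RT (IG.prodW u) (IG.prodW v) i ∧ ∀ u1 d u2, u = u1 ++ d :: u2 →
    RT (IG.prodW u2) (IG.prodW v) i → ¬ RT (d.1 * IG.prodW u2) (IG.prodW v) i →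
    IsReg (prk : Part n → ℕ) (IG.word (u1 ++ [d]))

def InvR (u v : List (Idem (Part n))) (i : Fin n) : Prop :=
  ¬ RB (IG.prodW u) (IG.prodW v) i ∧ ∀ v1 d v2, v = v1 ++ d :: v2 →
    RB (IG.prodW u) (IG.prodW v1) i → ¬ RB (IG.prodW u) (IG.prodW v1 * d.1) i →
    IsReg (prk : Part n → ℕ) (IG.word (d :: v2))

theorem split3 {α : Type*} {p q u1 u2 : List α} {a d : α} (h : p ++ a :: q = u1 ++ d :: u2) :
    (∃ t, p = u1 ++ d :: t ∧ u2 = t ++ a :: q) ∨ (p = u1 ∧ a = d ∧ q = u2) ∨
      (∃ t, u1 = p ++ a :: t ∧ q = t ++ d :: u2) := by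
  rcases List.append_eq_append_iff.1 h with ⟨t, h1, h2⟩ | ⟨t, h1, h2⟩
  · rcases t with _ | ⟨b, t⟩
    · simp only [List.nil_append, List.cons.injEq] at h2
      right; left
      exact ⟨by simpa using h1.symm, h2.1, h2.2⟩
    · simp only [List.cons_append, List.cons.injEq] at h2
      right; right
      exact ⟨t, by rw [h1, h2.1], h2.2⟩
  · rcases t with _ | ⟨b, t⟩
    · simp only [List.nil_append, List.cons.injEq] at h2
      right; left
      exact ⟨by simpa using h1, h2.1.symm, h2.2.symm⟩
    · simp only [List.cons_append, List.cons.injEq] at h2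
      left
      exact ⟨t, by rw [h1, h2.1], h2.2⟩

theorem prodW_step {u u' : List (Idem (Part n))} (h : IG.Step u u') :
    IG.prodW u = IG.prodW u' := by
  rw [← IG.pi_word, ← IG.pi_word, IG.word_step h]

theorem InvL_step {u u' v : List (Idem (Part n))} {i : Fin n} (hs : IG.Step u u') :
    InvL u v i ↔ InvL u' v i := by
  have hprod := prodW_step hs
  unfold InvL
  rw [hprod]
  refine and_congr_right fun _ => ?_
  cases hs with
  | mk p q e f g hb hg =>
    have hq : ∀ t : List (Idem (Part n)), IG.prodW (t ++ e :: f :: q) = IG.prodW (t ++ g :: q) := by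
      intro t
      simp only [IG.prodW_append, IG.prodW_cons, hg, mul_assoc]
    have hw : ∀ t : List (Idem (Part n)), IG.word (p ++ e :: f :: t) = IG.word (p ++ g :: t) := by
      intro t
      exact IG.word_step (IG.Step.mk p t e f g hb hg)
    constructor
    · intro H u1 d u2 h h1 h2
      rcases split3 h with ⟨t, h3, h4⟩ | ⟨h3, h4, h5⟩ | ⟨t, h3, h4⟩
      · refine H u1 d (t ++ e :: f :: q) (by rw [h3]; simp) ?_ ?_
        · rw [hq, ← h4]; exact h1
        · rw [hq, ← h4]; exact h2
      · subst h3 h4 h5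
        by_cases h6 : RT (f.1 * IG.prodW q) (IG.prodW v) i
        · have h7 : ¬ RT (e.1 * (f.1 * IG.prodW q)) (IG.prodW v) i := by
            rw [← mul_assoc, ← hg]; exact h2
          have h8 := H p e (f :: q) rfl (by rw [IG.prodW_cons]; exact h6)
            (by rw [IG.prodW_cons]; exact h7)
          have hge : g.1 * e.1 = e.1 := by rw [hg]; exact keyT e.2 f.2 hb h6 h7
          exact (regR hb hg hge).1 h8
        · have h8 := H (p ++ [e]) f q (by simp) h1 h6
          have h9 := hw []
          have h10 : p ++ [e] ++ [f] = p ++ e :: f :: [] := by simp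
          rw [h10, h9] at h8
          exact h8
      · subst h3 h4
        have h8 := H (p ++ e :: f :: t) d u2 (by simp) h1 h2
        have h9 := hw (t ++ [d])
        have h10 : p ++ e :: f :: t ++ [d] = p ++ e :: f :: (t ++ [d]) := by simp
        rw [h10, h9] at h8
        simpa using h8
    · intro H u1 d u2 h h1 h2
      rcases split3 h with ⟨t, h3, h4⟩ | ⟨h3, h4, h5⟩ | ⟨t, h3, h4⟩
      · refine H u1 d (t ++ g :: q) (by rw [h3]; simp) ?_ ?_
        · rw [← hq, ← h4]; exact h1
        · rw [← hq, ← h4]; exact h2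
      · subst h3 h4 h5
        rw [IG.prodW_cons] at h1 h2
        have h8 := H p g q rfl (RT_mono h1) (by rw [hg, mul_assoc]; exact h2)
        have hge : g.1 * e.1 = e.1 := by rw [hg]; exact keyT e.2 f.2 hb h1 h2
        exact (regR hb hg hge).2 h8
      · have h4' : [] ++ f :: q = t ++ d :: u2 := h4
        rcases split3 h4' with ⟨t', h5, _⟩ | ⟨h5, h6, h7⟩ | ⟨t', h5, h6⟩
        · simp at h5
        · subst h6 h7 h5
          have h8 := H p g q rfl h1 (fun h9 => h2 (by
            rw [hg, mul_assoc] at h9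
            exact RT_mono h9))
          rw [h3]
          have h9 := hw []
          have h10 : p ++ [e] ++ [f] = p ++ e :: f :: [] := by simp
          rw [h10, h9]
          exact h8
        · have h8 := H (p ++ g :: t') d u2 (by rw [h6]; simp) h1 h2
          have h9 := hw (t' ++ [d])
          have h10 : u1 ++ [d] = p ++ e :: f :: (t' ++ [d]) := by rw [h3, h5]; simp
          rw [h10, h9]
          simpa using h8

theorem InvR_step {u v v' : List (Idem (Part n))} {i : Fin n} (hs : IG.Step v v') :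
    InvR u v i ↔ InvR u v' i := by
  have hprod := prodW_step hs
  unfold InvR
  rw [hprod]
  refine and_congr_right fun _ => ?_
  cases hs with
  | mk p q e f g hb hg =>
    have hp : ∀ t : List (Idem (Part n)), IG.prodW (p ++ e :: f :: t) = IG.prodW (p ++ g :: t) := by
      intro t
      simp only [IG.prodW_append, IG.prodW_cons, hg, mul_assoc]
    have hw : ∀ t : List (Idem (Part n)), IG.word (t ++ e :: f :: q) = IG.word (t ++ g :: q) := by
      intro t
      exact IG.word_step (IG.Step.mk t q e f g hb hg)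
    constructor
    · intro H u1 d u2 h h1 h2
      rcases split3 h with ⟨t, h3, h4⟩ | ⟨h3, h4, h5⟩ | ⟨t, h3, h4⟩
      · have h8 := H u1 d (t ++ e :: f :: q) (by rw [h3]; simp) h1 h2
        have h9 := hw (d :: t)
        rw [← List.cons_append, h9] at h8
        rw [h4]
        exact h8
      · subst h3 h4 h5
        by_cases h6 : RB (IG.prodW u) (IG.prodW p * e.1) i
        · have h7 : ¬ RB (IG.prodW u) (IG.prodW p * e.1 * f.1) i := by
            rw [mul_assoc, ← hg]; exact h2
          have h8 := H (p ++ [e]) f q (by simp)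
            (by rw [IG.prodW_append, IG.prodW_cons, IG.prodW_nil, mul_one]; exact h6)
            (by rw [IG.prodW_append, IG.prodW_cons, IG.prodW_nil, mul_one]; exact h7)
          have hfg : f.1 * g.1 = f.1 := by rw [hg]; exact keyB e.2 f.2 hb h6 h7
          exact (regL hb hg hfg).1 h8
        · have h8 := H p e (f :: q) rfl h1 h6
          have h9 := hw []
          simp only [List.nil_append] at h9
          rw [h9] at h8
          exact h8
      · subst h3 h4
        refine H (p ++ e :: f :: t) d u2 (by simp) ?_ ?_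
        · rw [hp]; exact h1
        · rw [hp]; exact h2
    · intro H u1 d u2 h h1 h2
      rcases split3 h with ⟨t, h3, h4⟩ | ⟨h3, h4, h5⟩ | ⟨t, h3, h4⟩
      · have h8 := H u1 d (t ++ g :: q) (by rw [h3]; simp) h1 h2
        have h9 := hw (d :: t)
        rw [← List.cons_append, ← h9] at h8
        rw [h4]
        exact h8
      · subst h3 h4 h5
        have h8 := H p g q rfl h1 (fun h9 => h2 (by
          rw [hg, ← mul_assoc] at h9
          exact RB_mono h9))
        have h9 := hw []
        simp only [List.nil_append] at h9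
        rw [h9]
        exact h8
      · have h4' : [] ++ f :: q = t ++ d :: u2 := h4
        rcases split3 h4' with ⟨t', h5, _⟩ | ⟨h5, h6, h7⟩ | ⟨t', h5, h6⟩
        · simp at h5
        · subst h6 h7 h5
          have e1 : IG.prodW u1 = IG.prodW p * e.1 := by
            rw [h3, IG.prodW_append, IG.prodW_cons, IG.prodW_nil, mul_one]
          rw [e1] at h1 h2
          have h8 := H p g q rfl (RB_mono h1) (by rw [hg, ← mul_assoc]; exact h2)
          have hfg : f.1 * g.1 = f.1 := by rw [hg]; exact keyB e.2 f.2 hb h1 h2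
          exact (regL hb hg hfg).2 h8
        · have e1 : IG.prodW u1 = IG.prodW (p ++ g :: t') := by
            rw [h3, h5]
            exact hp t'
          exact H (p ++ g :: t') d u2 (by rw [h6]; simp) (by rw [← e1]; exact h1)
            (by rw [← e1]; exact h2)

theorem InvL_word {u u' v v' : List (Idem (Part n))} {i : Fin n} (hu : u ≠ []) (hu' : u' ≠ [])
    (h : IG.word u = IG.word u') (hv : IG.word v = IG.word v') : InvL u v i ↔ InvL u' v' i := by
  have h1 := IG.word_eq_closed (K := fun u => InvL u v i) (fun _ _ hs => InvL_step hs) hu hu' h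
  have h2 : IG.prodW v = IG.prodW v' := by rw [← IG.pi_word, ← IG.pi_word, hv]
  refine h1.trans ?_
  unfold InvL
  rw [h2]

theorem InvR_word {u u' v v' : List (Idem (Part n))} {i : Fin n} (hv : v ≠ []) (hv' : v' ≠ [])
    (hu : IG.word u = IG.word u') (h : IG.word v = IG.word v') : InvR u v i ↔ InvR u' v' i := by
  have h1 := IG.word_eq_closed (K := fun v => InvR u v i) (fun _ _ hs => InvR_step hs) hv hv' h
  have h2 : IG.prodW u = IG.prodW u' := by rw [← IG.pi_word, ← IG.pi_word, hu]
  refine h1.trans ?_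
  unfold InvR
  rw [h2]

theorem InvL_CS {u w v : List (Idem (Part n))} {i j : Fin n}
    (h : CS (IG.prodW u) (IG.prodW w) (IG.prodW v) i j) :
    InvL u (w ++ v) i ↔ InvL (u ++ w) v j := by
  have key : ∀ a b : List (Idem (Part n)), u = a ++ b →
      (RT (IG.prodW b) (IG.prodW (w ++ v)) i ↔ RT (IG.prodW (b ++ w)) (IG.prodW v) j) := by
    intro a b hab
    rw [hab, IG.prodW_append] at h
    rw [IG.prodW_append, IG.prodW_append]
    exact RT_CS h
  unfold InvL
  constructor
  · rintro ⟨h1, h2⟩
    refine ⟨fun h3 => h1 ((key [] u rfl).2 h3), fun u1 d u2 h3 h4 h5 => ?_⟩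
    rcases List.append_eq_append_iff.1 h3 with ⟨t, h6, h7⟩ | ⟨t, h6, h7⟩
    · -- u1 = u ++ t, w = t ++ d :: u2
      exfalso
      apply h5
      have h8 := RT_of_CS h
      rw [h7, IG.prodW_append, IG.prodW_cons] at h8
      exact RT_mono h8
    · -- u = u1 ++ t, d :: u2 = t ++ w
      rcases t with _ | ⟨b, t⟩
      · exfalso
        apply h5
        have h8 := RT_of_CS h
        rw [List.nil_append] at h7
        rw [← h7, IG.prodW_cons] at h8
        exact h8
      · simp only [List.cons_append, List.cons.injEq] at h7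
        obtain ⟨rfl, h7⟩ := h7
        refine h2 u1 d t h6 ?_ ?_
        · rw [key (u1 ++ [d]) t (by rw [h6]; simp), ← h7]
          exact h4
        · have h8 := key u1 (d :: t) h6
          rw [List.cons_append, IG.prodW_cons, IG.prodW_cons, ← h7] at h8
          rw [h8]
          exact h5
  · rintro ⟨h1, h2⟩
    refine ⟨fun h3 => h1 ((key [] u rfl).1 h3), fun u1 d u2 h3 h4 h5 => ?_⟩
    refine h2 u1 d (u2 ++ w) (by rw [h3]; simp) ?_ ?_
    · rw [← key (u1 ++ [d]) u2 (by rw [h3]; simp)]
      exact h4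
    · have h8 := key u1 (d :: u2) h3
      rw [List.cons_append, IG.prodW_cons, IG.prodW_cons] at h8
      rw [← h8]
      exact h5

theorem InvR_CS {u w v : List (Idem (Part n))} {i j : Fin n}
    (h : CS (IG.prodW u) (IG.prodW w) (IG.prodW v) i j) :
    InvR u (w ++ v) i ↔ InvR (u ++ w) v j := by
  have key : ∀ a b : List (Idem (Part n)), v = a ++ b →
      (RB (IG.prodW u) (IG.prodW (w ++ a)) i ↔ RB (IG.prodW (u ++ w)) (IG.prodW a) j) := by
    intro a b hab
    rw [hab, IG.prodW_append] at h
    rw [IG.prodW_append, IG.prodW_append]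
    exact RB_CS h
  unfold InvR
  constructor
  · rintro ⟨h1, h2⟩
    refine ⟨fun h3 => h1 ((key v [] (by simp)).2 h3), fun v1 d v2 h3 h4 h5 => ?_⟩
    refine h2 (w ++ v1) d v2 (by rw [h3]; simp) ((key v1 _ h3).2 h4) ?_
    have h8 := key (v1 ++ [d]) v2 (by rw [h3]; simp)
    have e1 : IG.prodW (w ++ (v1 ++ [d])) = IG.prodW (w ++ v1) * d.1 := by
      simp [IG.prodW_append, mul_assoc]
    have e2 : IG.prodW (v1 ++ [d]) = IG.prodW v1 * d.1 := by
      simp [IG.prodW_append]
    rw [e1, e2] at h8
    rw [h8]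
    exact h5
  · rintro ⟨h1, h2⟩
    refine ⟨fun h3 => h1 ((key v [] (by simp)).1 h3), fun v1 d v2 h3 h4 h5 => ?_⟩
    rcases List.append_eq_append_iff.1 h3 with ⟨t, h6, h7⟩ | ⟨t, h6, h7⟩
    · -- v1 = w ++ t, v = t ++ d :: v2
      refine h2 t d v2 h7 ?_ ?_
      · rw [← key t _ h7, ← h6]
        exact h4
      · have h8 := key (t ++ [d]) v2 (by rw [h7]; simp)
        have e1 : IG.prodW (w ++ (t ++ [d])) = IG.prodW v1 * d.1 := by
          rw [h6]
          simp [IG.prodW_append, mul_assoc]
        have e2 : IG.prodW (t ++ [d]) = IG.prodW t * d.1 := by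
          simp [IG.prodW_append]
        rw [e1, e2] at h8
        rw [← h8]
        exact h5
    · -- w = v1 ++ t, d :: v2 = t ++ v
      have h8 := RB_of_CS h
      rcases t with _ | ⟨b, t⟩
      · simp only [List.nil_append] at h7
        rw [List.append_nil] at h6
        subst h6
        refine h2 [] d v2 (by rw [List.nil_append, h7]) ?_ ?_
        · exact RB_one _ _
        · have h9 := key [d] v2 (by rw [← h7]; rfl)
          have e1 : IG.prodW (w ++ [d]) = IG.prodW w * d.1 := by
            simp [IG.prodW_append]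
          have e2 : IG.prodW ([] : List (Idem (Part n))) * d.1 = IG.prodW [d] := by simp
          rw [e1] at h9
          rw [e2, ← h9]
          exact h5
      · exfalso
        simp only [List.cons_append, List.cons.injEq] at h7
        obtain ⟨rfl, h7⟩ := h7
        apply h5
        rw [h6] at h8
        have e1 : IG.prodW (v1 ++ d :: t) = IG.prodW v1 * d.1 * IG.prodW t := by
          simp [IG.prodW_append, mul_assoc]
        rw [e1] at h8
        exact RB_mono h8

/-! ### the set of long marks -/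

/-- the marked factorisations `(x, i, y)` of `t` with both invariants -/
def PP (t x : IG (Part n)) (i : Fin n) (y : IG (Part n)) : Prop :=
  x * y = t ∧ ∃ u v, u ≠ [] ∧ v ≠ [] ∧ IG.word u = x ∧ IG.word v = y ∧ InvL u v i ∧ InvR u v i

theorem PP_word {t : IG (Part n)} {u v : List (Idem (Part n))} (hu : u ≠ []) (hv : v ≠ [])
    {i : Fin n} : PP t (IG.word u) i (IG.word v) ↔
      IG.word u * IG.word v = t ∧ InvL u v i ∧ InvR u v i := by
  constructor
  · rintro ⟨h, u', v', hu', hv', h1, h2, h3, h4⟩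
    exact ⟨h, (InvL_word hu' hu h1 h2).1 h3, (InvR_word hv' hv h1 h2).1 h4⟩
  · rintro ⟨h, h1, h2⟩
    exact ⟨h, u, v, hu, hv, rfl, rfl, h1, h2⟩

theorem PP_P1 (t x s y : IG (Part n)) (i j : Fin n)
    (h : CS (IG.pi x) (IG.pi s) (IG.pi y) i j) : PP t x i (s * y) ↔ PP t (x * s) j y := by
  obtain ⟨u, hu, rfl⟩ := IG.exists_word x
  obtain ⟨w, hw, rfl⟩ := IG.exists_word s
  obtain ⟨v, hv, rfl⟩ := IG.exists_word y
  rw [IG.pi_word, IG.pi_word, IG.pi_word] at h
  rw [← IG.word_append, ← IG.word_append, PP_word hu (by simp [hw]), PP_word (by simp [hu]) hv,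
    InvL_CS h, InvR_CS h]
  simp only [IG.word_append, mul_assoc]

/-! ### products of colourings -/

theorem B_pmul {α : Part n} {f g f' g' : Fin n → ZMod 2} (h : B α f g) (h' : B α f' g') :
    B α (fun i => f i * f' i) (fun i => g i * g' i) := by
  intro x y hxy
  have h1 := h x y hxy
  have h2 := h' x y hxy
  rcases x with x | x <;> rcases y with y | y <;>
    · simp only [Sum.elim_inl, Sum.elim_inr] at h1 h2 ⊢
      rw [h1, h2]

theorem B_const (α : Part n) (c : ZMod 2) : B α (fun _ => c) (fun _ => c) := by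
  intro x y _
  rcases x with x | x <;> rcases y with y | y <;> rfl

theorem B_compl {α : Part n} {f g : Fin n → ZMod 2} (h : B α f g) :
    B α (fun i => 1 - f i) (fun i => 1 - g i) := by
  intro x y hxy
  have h1 := h x y hxy
  rcases x with x | x <;> rcases y with y | y <;>
    · simp only [Sum.elim_inl, Sum.elim_inr] at h1 ⊢
      rw [h1]

theorem zmod2_cases (a : ZMod 2) : a = 0 ∨ a = 1 := by
  revert a; decide

theorem RT_exists {x s y : Part n} {i : Fin n} (h : RT s y i) : ∃ j, CS x s y j i := by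
  classical
  by_contra hne
  push Not at hne
  have key : ∀ J : Finset (Fin n), ∃ f g g' f', B x f g ∧ B s g g' ∧ B y g' f' ∧ g' i = 1 ∧
      ∀ j ∈ J, g j = 0 := by
    intro J
    induction J using Finset.induction_on with
    | empty =>
      exact ⟨_, _, _, _, B_const x 1, B_const s 1, B_const y 1, rfl, by simp⟩
    | insert a J _ ih =>
      obtain ⟨f, g, g', f', h1, h2, h3, h4, h5⟩ := ih
      have h6 : ∃ f g g' f', B x f g ∧ B s g g' ∧ B y g' f' ∧ g' i = 1 ∧ g a = 0 := by
        have h7 := hne a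
        unfold CS at h7
        push Not at h7
        obtain ⟨p, q, q', p', k1, k2, k3, k4⟩ := h7
        rcases zmod2_cases (q' i) with h8 | h8
        · refine ⟨_, _, _, _, B_compl k1, B_compl k2, B_compl k3, ?_, ?_⟩
          · show 1 - q' i = 1
            rw [h8]; rfl
          · show 1 - q a = 0
            rcases zmod2_cases (q a) with h9 | h9
            · exact absurd (h9.trans h8.symm) k4
            · rw [h9]; rfl
        · refine ⟨_, _, _, _, k1, k2, k3, h8, ?_⟩
          rcases zmod2_cases (q a) with h9 | h9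
          · exact h9
          · exact absurd (h9.trans h8.symm) k4
      obtain ⟨p, q, q', p', k1, k2, k3, k4, k5⟩ := h6
      refine ⟨_, _, _, _, B_pmul h1 k1, B_pmul h2 k2, B_pmul h3 k3, ?_, ?_⟩
      · show g' i * q' i = 1
        rw [h4, k4]; rfl
      · intro j hj
        show g j * q j = 0
        rcases Finset.mem_insert.1 hj with rfl | hj
        · rw [k5, mul_zero]
        · rw [h5 j hj, zero_mul]
  obtain ⟨f, g, g', f', _, h2, h3, h4, h5⟩ := key Finset.univ
  have hg : g = 0 := funext fun j => h5 j (Finset.mem_univ j)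
  rw [hg] at h2
  have := h g' f' h2 h3
  rw [h4] at this
  exact one_ne_zero this

theorem RB_exists {x s y : Part n} {i : Fin n} (h : RB x s i) : ∃ j, CS x s y i j := by
  classical
  by_contra hne
  push Not at hne
  have key : ∀ J : Finset (Fin n), ∃ f g g' f', B x f g ∧ B s g g' ∧ B y g' f' ∧ g i = 1 ∧
      ∀ j ∈ J, g' j = 0 := by
    intro J
    induction J using Finset.induction_on with
    | empty =>
      exact ⟨_, _, _, _, B_const x 1, B_const s 1, B_const y 1, rfl, by simp⟩
    | insert a J _ ih =>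
      obtain ⟨f, g, g', f', h1, h2, h3, h4, h5⟩ := ih
      have h6 : ∃ f g g' f', B x f g ∧ B s g g' ∧ B y g' f' ∧ g i = 1 ∧ g' a = 0 := by
        have h7 := hne a
        unfold CS at h7
        push Not at h7
        obtain ⟨p, q, q', p', k1, k2, k3, k4⟩ := h7
        rcases zmod2_cases (q i) with h8 | h8
        · refine ⟨_, _, _, _, B_compl k1, B_compl k2, B_compl k3, ?_, ?_⟩
          · show 1 - q i = 1
            rw [h8]; rfl
          · show 1 - q' a = 0
            rcases zmod2_cases (q' a) with h9 | h9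
            · exact absurd (h8.trans h9.symm) k4
            · rw [h9]; rfl
        · refine ⟨_, _, _, _, k1, k2, k3, h8, ?_⟩
          rcases zmod2_cases (q' a) with h9 | h9
          · exact h9
          · exact absurd (h8.trans h9.symm) k4
      obtain ⟨p, q, q', p', k1, k2, k3, k4, k5⟩ := h6
      refine ⟨_, _, _, _, B_pmul h1 k1, B_pmul h2 k2, B_pmul h3 k3, ?_, ?_⟩
      · show g i * q i = 1
        rw [h4, k4]; rfl
      · intro j hj
        show g' j * q' j = 0
        rcases Finset.mem_insert.1 hj with rfl | hj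
        · rw [k5, mul_zero]
        · rw [h5 j hj, zero_mul]
  obtain ⟨f, g, g', f', h1, h2, _, h4, h5⟩ := key Finset.univ
  have hg : g' = 0 := funext fun j => h5 j (Finset.mem_univ j)
  rw [hg] at h2
  have := h f g h1 h2
  rw [h4] at this
  exact one_ne_zero this

/-! ### long marks meet the complement of short words -/

theorem cutT {y : Part n} {i : Fin n} : ∀ c : List (Idem (Part n)), ¬ RT (IG.prodW c) y i →
    ∃ c' d c'', c = c' ++ d :: c'' ∧ RT (IG.prodW c'') y i ∧ ¬ RT (d.1 * IG.prodW c'') y i := by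
  intro c
  induction c with
  | nil => intro h; exact absurd (RT_one y i) h
  | cons d c ih =>
    intro h
    by_cases h1 : RT (IG.prodW c) y i
    · exact ⟨[], d, c, rfl, h1, h⟩
    · obtain ⟨c', d', c'', h2, h3, h4⟩ := ih h1
      exact ⟨d :: c', d', c'', by rw [h2]; rfl, h3, h4⟩

theorem cutB {x : Part n} {i : Fin n} : ∀ c : List (Idem (Part n)), ¬ RB x (IG.prodW c) i →
    ∃ c' d c'', c = c' ++ d :: c'' ∧ RB x (IG.prodW c') i ∧ ¬ RB x (IG.prodW c' * d.1) i := by
  intro c
  induction c using List.reverseRecOn with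
  | nil => intro h; exact absurd (RB_one x i) h
  | append_singleton c d ih =>
    intro h
    by_cases h1 : RB x (IG.prodW c) i
    · refine ⟨c, d, [], rfl, h1, ?_⟩
      simpa [IG.prodW_append] using h
    · obtain ⟨c', d', c'', h2, h3, h4⟩ := ih h1
      exact ⟨c', d', c'' ++ [d], by rw [h2]; simp, h3, h4⟩

theorem PP_P2 {t : IG (Part n)} {L : ℕ}
    (hL : ∀ X m Y : List (Idem (Part n)), X ≠ [] → Y ≠ [] → IsReg (prk : Part n → ℕ) (IG.word X) →
      IsReg (prk : Part n → ℕ) (IG.word Y) → IG.word (X ++ m ++ Y) = t → L < m.length)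
    {c1 c2 : List (Idem (Part n))} (hc : c1.length + c2.length ≤ L) (X Y : IG (Part n)) (i : Fin n)
    (h : PP t (X * IG.word c1) i (IG.word c2 * Y)) :
    (∃ j, CS (IG.pi X) (IG.pi (IG.word c1)) (IG.pi (IG.word c2 * Y)) j i) ∨
    (∃ j, CS (IG.pi (X * IG.word c1)) (IG.pi (IG.word c2)) (IG.pi Y) i j) := by
  obtain ⟨u, hu, rfl⟩ := IG.exists_word X
  obtain ⟨v, hv, rfl⟩ := IG.exists_word Y
  rw [← IG.word_append, ← IG.word_append, PP_word (by simp [hu]) (by simp [hv])] at h
  obtain ⟨h1, h2, h3⟩ := h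
  rw [← IG.word_append, ← IG.word_append, IG.pi_word, IG.pi_word, IG.pi_word, IG.pi_word,
    IG.pi_word, IG.pi_word]
  by_contra hne
  push Not at hne
  obtain ⟨h4, h5⟩ := hne
  have h6 : ¬ RT (IG.prodW c1) (IG.prodW (c2 ++ v)) i := by
    intro h7
    obtain ⟨j, hj⟩ := RT_exists (x := IG.prodW u) h7
    exact h4 j hj
  have h7 : ¬ RB (IG.prodW (u ++ c1)) (IG.prodW c2) i := by
    intro h8
    obtain ⟨j, hj⟩ := RB_exists (y := IG.prodW v) h8
    exact h5 j hj
  obtain ⟨a', d, a'', k1, k2, k3⟩ := cutT c1 h6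
  obtain ⟨b', e, b'', l1, l2, l3⟩ := cutB c2 h7
  have h8 := h2.2 (u ++ a') d a'' (by rw [k1]; simp) k2 k3
  have h9 := h3.2 b' e (b'' ++ v) (by rw [l1]; simp) l2 l3
  have h10 := hL (u ++ a' ++ [d]) (a'' ++ b') (e :: (b'' ++ v)) (by simp) (by simp) h8 h9 (by
    rw [← h1, ← IG.word_append]
    congr 1
    rw [k1, l1]
    simp)
  rw [k1, l1] at hc
  simp only [List.length_append, List.length_cons] at hc h10
  omega

end Pool.Agent.IGQ
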