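import Pool.Agent.IGP.Lang

/-! MP_e3ace9_al, Q1, module Long.

PROOF.  `w = X ++ m ++ Y` is nonempty and `word w = word ws.flatten`.  By `langK_step` with `T = IG S`,
`ρ = IG.pi`, `θ = MonoidHom.id`, `L = ws.map word` and `IG.word_eq_closed`, `LangK rk pi id L w`: there are `qs` with
`qs.flatten = w`, all `q ∈ qs` regular words, `Valid rk (qs.map prodW)` and `qs.length = ws.length`
(`forall₂_length` / `moveEq_rigid`).  (`ws = []` is trivial.)  `X`, `Y` are regular words (`isReg_word_iff`).
CLAIM: if `X` is a regular word and `X ++ Z = (q1 :: q2 :: qs).flatten` (valid factorisation into regular words)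
then `X.length < q1.length + q2.length`.  Suppose not: `X = q1 ++ q2 ++ … ++ qh ++ q'` with `h ≥ 2` and `q'` a
first part of `q(h+1)` (possibly empty, `q' ≠ q(h+1)`).  Let `z` be a letter of `X` with `rk z = rk (prodW X) =: D`.  For `i ≤ h`:
`D ≤ rk (q_i q_(i±1)) < rk (q_i) ≤ rk` of every letter of `q_i`, so `z` is a letter of `q'`;
`D ≤ rk (qh q') ≤ rk q' ≤ rk z = D`, so `rk (qh q') = rk q'` and (`rk_right_of_stab`) with `q(h+1) = q' q''`:
`rk (qh q(h+1)) = rk (q' q'') = rk q(h+1)`, contradicting `Drop`.  (Or by induction on the list, e.g. with the statement: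
if `Valid (q :: qs)`, `X ≠ []` is a first part of `qs.flatten` and the word `q ++ X` is regular of rank `D` then
`D = rk q` (and the letter is in `q`); start of the chain with `q1, q2`.)
Dually for `Y`.  So `m.length ≥ (qs.map length).sum - (|q1| + |q2|) - (|q_(M-1)| + |q_M|) ≥ M - 4`.
-/

namespace Pool.Agent.IGQ

open Pool.Agent.IGP

variable {S : Type} [Monoid S] {rk : S → ℕ}

theorem le_letter (h : IsRank rk) {w : List (Idem S)} {z : Idem S} (hz : z ∈ w) :
    rk (IG.prodW w) ≤ rk z.1 := by
  obtain ⟨a, b, rfl⟩ := List.append_of_mem hz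
  rw [IG.prodW_append, IG.prodW_cons]
  exact (h.mul_le_right _ _).trans (h.mul_le_left _ _)

theorem noletter (h : IsRank rk) (D : ℕ) : ∀ (qs : List (List (Idem S))) (q P Z : List (Idem S)),
    List.IsChain (Drop rk) ((q :: qs).map IG.prodW) → D < rk (IG.prodW q) →
    D ≤ rk (IG.prodW (q ++ P)) → P ++ Z = qs.flatten → ∀ z ∈ q ++ P, rk z.1 ≠ D := by
  intro qs
  induction qs with
  | nil =>
    intro q P Z _ h1 _ h3 z hz
    rw [List.flatten_nil, List.append_eq_nil_iff] at h3
    rw [h3.1, List.append_nil] at hz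
    have := le_letter h hz
    omega
  | cons q1 qs ih =>
    intro q P Z hc h1 h2 h3 z hz
    simp only [List.map_cons] at hc
    rw [List.isChain_cons_cons] at hc
    obtain ⟨hd, hc⟩ := hc
    rcases List.mem_append.1 hz with hz | hz
    · have := le_letter h hz
      omega
    · rw [List.flatten_cons] at h3
      rcases List.append_eq_append_iff.1 h3 with ⟨q', h4, h5⟩ | ⟨P', h4, h5⟩
      · intro hzD
        have h6 := le_letter h hz
        have h7 := h.mul_le_right (IG.prodW q) (IG.prodW P)
        rw [IG.prodW_append] at h2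
        have h8 : rk (IG.prodW q * IG.prodW P) = rk (IG.prodW P) := by omega
        have h9 := h.rk_right_of_stab h8 (IG.prodW q')
        rw [mul_assoc, ← IG.prodW_append, ← h4] at h9
        have h10 := hd.2
        omega
      · subst h4
        have h6 : D ≤ rk (IG.prodW (q1 ++ P')) := by
          rw [IG.prodW_append] at h2
          exact h2.trans (h.mul_le_right _ _)
        have h7 : D < rk (IG.prodW q1) := by
          have h8 : IG.prodW (q ++ (q1 ++ P')) = IG.prodW q * IG.prodW q1 * IG.prodW P' := by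
            rw [IG.prodW_append, IG.prodW_append, mul_assoc]
          rw [h8] at h2
          exact lt_of_le_of_lt (h2.trans (h.mul_le_left _ _)) hd.2
        exact ih q1 P' Z hc h7 h6 h5.symm z hz

theorem noletter' (h : IsRank rk) (D : ℕ) : ∀ (qs : List (List (Idem S)))
    (q P Z : List (Idem S)),
    List.IsChain (Drop rk) ((qs ++ [q]).map IG.prodW) → D < rk (IG.prodW q) →
    D ≤ rk (IG.prodW (P ++ q)) → Z ++ P = qs.flatten → ∀ z ∈ P ++ q, rk z.1 ≠ D := by
  intro qs
  induction qs using List.reverseRecOn with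
  | nil =>
    intro q P Z _ h1 _ h3 z hz
    rw [List.flatten_nil, List.append_eq_nil_iff] at h3
    rw [h3.2, List.nil_append] at hz
    have := le_letter h hz
    omega
  | append_singleton qs q1 ih =>
    intro q P Z hc h1 h2 h3 z hz
    have hd : Drop rk (IG.prodW q1) (IG.prodW q) := by
      rw [List.map_append, List.map_append] at hc
      simp only [List.map_cons, List.map_nil, List.append_assoc, List.cons_append,
        List.nil_append] at hc
      have h4 := (List.isChain_append.1 hc).2.1
      rw [List.isChain_cons_cons] at h4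
      exact h4.1
    have hc' : List.IsChain (Drop rk) ((qs ++ [q1]).map IG.prodW) := by
      rw [List.map_append] at hc
      exact (List.isChain_append.1 hc).1
    rcases List.mem_append.1 hz with hz | hz
    swap
    · have := le_letter h hz
      omega
    · have h3' : Z ++ P = qs.flatten ++ q1 := by rw [h3]; simp
      rcases List.append_eq_append_iff.1 h3' with ⟨P', h4, h5⟩ | ⟨q', h4, h5⟩
      · subst h5
        have h6 : D ≤ rk (IG.prodW (P' ++ q1)) := by
          rw [IG.prodW_append] at h2
          exact h2.trans (h.mul_le_left _ _)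
        have h7 : D < rk (IG.prodW q1) := by
          have h8 : IG.prodW (P' ++ q1 ++ q) = IG.prodW P' * (IG.prodW q1 * IG.prodW q) := by
            rw [IG.prodW_append, IG.prodW_append, mul_assoc]
          rw [h8] at h2
          exact lt_of_le_of_lt (h2.trans (h.mul_le_right _ _)) hd.1
        exact ih q1 P' Z hc' h7 h6 h4.symm z hz
      · intro hzD
        have h6 := le_letter h hz
        have h7 := h.mul_le_left (IG.prodW P) (IG.prodW q)
        rw [IG.prodW_append] at h2
        have h8 : rk (IG.prodW P * IG.prodW q) = rk (IG.prodW P) := by omega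
        have h9 := h.rk_left_of_stab h8 (IG.prodW q')
        rw [← mul_assoc, ← IG.prodW_append, ← h5] at h9
        have h10 := hd.1
        omega

theorem shortL (h : IsRank rk) {q1 q2 : List (Idem S)} {qs : List (List (Idem S))}
    {X Z : List (Idem S)} (hc : List.IsChain (Drop rk) ((q1 :: q2 :: qs).map IG.prodW))
    (hX : IsRegW rk X) (hXZ : X ++ Z = (q1 :: q2 :: qs).flatten) :
    X.length < q1.length + q2.length := by
  by_contra hlt
  push Not at hlt
  have h1 : X ++ Z = (q1 ++ q2) ++ qs.flatten := by rw [hXZ]; simp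
  simp only [List.map_cons] at hc
  rw [List.isChain_cons_cons] at hc
  obtain ⟨hd, hc⟩ := hc
  obtain ⟨P, h2, h3⟩ : ∃ P, X = (q1 ++ q2) ++ P ∧ qs.flatten = P ++ Z := by
    rcases List.append_eq_append_iff.1 h1 with ⟨P, h4, h5⟩ | ⟨P, h4, h5⟩
    · have h6 := congrArg List.length h4
      simp only [List.length_append] at h6
      have h7 : P = [] := List.length_eq_zero_iff.1 (by omega)
      subst h7
      exact ⟨[], by rw [h4]; simp, by rw [List.nil_append] at h5 ⊢; exact h5.symm⟩
    · exact ⟨P, h4, h5⟩
  obtain ⟨z, hz, hzr⟩ := hX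
  have h4 : IG.prodW X = IG.prodW q1 * IG.prodW q2 * IG.prodW P := by
    rw [h2, IG.prodW_append, IG.prodW_append]
  have h5 : rk (IG.prodW X) ≤ rk (IG.prodW q1 * IG.prodW q2) := by
    rw [h4]; exact h.mul_le_left _ _
  have h6 : rk (IG.prodW X) ≤ rk (IG.prodW (q2 ++ P)) := by
    rw [h4, mul_assoc, IG.prodW_append]; exact h.mul_le_right _ _
  rw [h2, List.append_assoc] at hz
  rcases List.mem_append.1 hz with hz | hz
  · have h7 := le_letter h hz
    have h8 := hd.1
    omega
  · exact noletter h _ qs q2 P Z hc (lt_of_le_of_lt h5 hd.2) h6 h3.symm z hz hzr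

theorem shortR (h : IsRank rk) {q1 q2 : List (Idem S)} {qs : List (List (Idem S))}
    {X Z : List (Idem S)} (hc : List.IsChain (Drop rk) ((qs ++ [q1, q2]).map IG.prodW))
    (hX : IsRegW rk X) (hXZ : Z ++ X = (qs ++ [q1, q2]).flatten) :
    X.length < q1.length + q2.length := by
  by_contra hlt
  push Not at hlt
  have h1 : Z ++ X = qs.flatten ++ (q1 ++ q2) := by rw [hXZ]; simp
  have hd : Drop rk (IG.prodW q1) (IG.prodW q2) := by
    rw [List.map_append] at hc
    have h4 := (List.isChain_append.1 hc).2.1
    simp only [List.map_cons, List.map_nil] at h4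
    rw [List.isChain_cons_cons] at h4
    exact h4.1
  have hc' : List.IsChain (Drop rk) ((qs ++ [q1]).map IG.prodW) := by
    have e1 : qs ++ [q1, q2] = (qs ++ [q1]) ++ [q2] := by simp
    rw [e1, List.map_append] at hc
    exact (List.isChain_append.1 hc).1
  obtain ⟨P, h2, h3⟩ : ∃ P, X = P ++ (q1 ++ q2) ∧ qs.flatten = Z ++ P := by
    rcases List.append_eq_append_iff.1 h1 with ⟨P, h4, h5⟩ | ⟨P, h4, h5⟩
    · exact ⟨P, h5, h4⟩
    · have h6 := congrArg List.length h5
      simp only [List.length_append] at h6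
      have h7 : P = [] := List.length_eq_zero_iff.1 (by omega)
      subst h7
      exact ⟨[], by rw [List.nil_append] at h5 ⊢; exact h5.symm, by
        rw [List.append_nil] at h4 ⊢; exact h4.symm⟩
  obtain ⟨z, hz, hzr⟩ := hX
  have h4 : IG.prodW X = IG.prodW P * (IG.prodW q1 * IG.prodW q2) := by
    rw [h2, IG.prodW_append, IG.prodW_append]
  have h5 : rk (IG.prodW X) ≤ rk (IG.prodW q1 * IG.prodW q2) := by
    rw [h4]; exact h.mul_le_right _ _
  have h6 : rk (IG.prodW X) ≤ rk (IG.prodW (P ++ q1)) := by
    rw [h4, ← mul_assoc, IG.prodW_append]; exact h.mul_le_left _ _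
  rw [h2, ← List.append_assoc] at hz
  rcases List.mem_append.1 hz with hz | hz
  · exact noletter' h _ qs q1 P Z hc' (lt_of_le_of_lt h5 hd.1) h6 h3.symm z hz hzr
  · have h7 := le_letter h hz
    have h8 := hd.2
    omega

theorem length_le_flatten {E : Type} {ws : List (List E)} (h : ∀ u ∈ ws, u ≠ []) :
    ws.length ≤ ws.flatten.length := by
  induction ws with
  | nil => simp
  | cons w ws ih =>
    have h1 := ih fun u hu => h u (List.mem_cons_of_mem _ hu)
    have h2 : 0 < w.length := List.length_pos_iff.2 (h w (by simp))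
    rw [List.flatten_cons, List.length_cons, List.length_append]
    omega

theorem long (h : IsRank rk) {ws : List (List (Idem S))} (hreg : ∀ u ∈ ws, IsRegW rk u)
    (hval : Valid rk (ws.map IG.prodW)) {X m Y : List (Idem S)} (hX : IsReg rk (IG.word X))
    (hX0 : X ≠ []) (hY : IsReg rk (IG.word Y)) (hY0 : Y ≠ [])
    (heq : IG.word (X ++ m ++ Y) = IG.word ws.flatten) : ws.length ≤ m.length + 4 := by
  by_cases hws : ws = []
  · subst hws; simp
  have hne : ws.flatten ≠ [] := by
    intro h0
    obtain ⟨u, hu⟩ := List.exists_mem_of_ne_nil ws hws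
    have h1 := hreg u hu
    have h2 : u = [] := by
      rw [List.flatten_eq_nil_iff] at h0
      exact h0 u hu
    exact h1.ne_nil h2
  have hne' : X ++ m ++ Y ≠ [] := by simp [hX0]
  have hK : LangK rk (IG.pi : IG S →* S) (MonoidHom.id (IG S)) (ws.map IG.word) ws.flatten :=
    ⟨ws, rfl, hreg, hval, Relation.EqvGen.refl _⟩
  have hK' : LangK rk (IG.pi : IG S →* S) (MonoidHom.id (IG S)) (ws.map IG.word)
      (X ++ m ++ Y) :=
    (IG.word_eq_closed (K := LangK rk (IG.pi : IG S →* S) (MonoidHom.id (IG S))
      (ws.map IG.word)) (fun _ _ hs => langK_step h (MonoidHom.comp_id _) _ hs) hne' hne heq).2 hK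
  obtain ⟨qs, h1, h2, h3, h4⟩ := hK'
  have h5 := forall₂_length h4
  rw [List.length_map, List.length_map] at h5
  rw [← h5]
  have hXr : IsRegW rk X := (isReg_word_iff h hX0).1 hX
  have hYr : IsRegW rk Y := (isReg_word_iff h hY0).1 hY
  by_cases h6 : qs.length ≤ 4
  · omega
  push Not at h6
  -- first two factors
  obtain ⟨q1, q2, rest, hq⟩ : ∃ q1 q2 rest, qs = q1 :: q2 :: rest := by
    rcases qs with _ | ⟨q1, _ | ⟨q2, rest⟩⟩
    · simp at h6
    · simp at h6
    · exact ⟨q1, q2, rest, rfl⟩
  obtain ⟨mid, q3, q4, hr⟩ : ∃ mid q3 q4, rest = mid ++ [q3, q4] := by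
    rw [hq] at h6
    simp only [List.length_cons] at h6
    rcases List.eq_nil_or_concat rest with hr | ⟨r1, q4, hr⟩
    · rw [hr] at h6; simp at h6
    · rcases List.eq_nil_or_concat r1 with hr1 | ⟨r2, q3, hr1⟩
      · rw [hr, hr1] at h6; simp at h6
      · exact ⟨r2, q3, q4, by rw [hr, hr1]; simp⟩
  have h7 := shortL (X := X) (Z := m ++ Y) h (by rw [← hq]; exact h3) hXr (by
    rw [← hq, h1, List.append_assoc])
  have hq' : qs = (q1 :: q2 :: mid) ++ [q3, q4] := by rw [hq, hr]; simp
  have h8 := shortR (X := Y) (Z := X ++ m) h (by rw [← hq']; exact h3) hYr (by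
    rw [← hq', h1])
  have h9 : mid.length ≤ mid.flatten.length := length_le_flatten fun u hu =>
    (h2 u (by rw [hq, hr]; simp [hu])).ne_nil
  have h10 := congrArg List.length h1
  rw [hq'] at h10 ⊢
  simp only [List.length_append, List.length_cons, List.flatten_append, List.flatten_cons,
    List.flatten_nil, List.append_nil, List.length_nil] at h10 ⊢
  omega

end Pool.Agent.IGQ
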