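import Pool.Agent.IGQ.Fcrs
import Pool.Agent.IGQ.Inv
import Pool.Agent.IGQ.Long
import Pool.Agent.IGQ.Elem

/-! MP_e3ace9_al, Q1.  For `n ≥ 5` the semigroup `IG(E(𝒫ₙ))` has no finite complete rewriting system. -/

namespace Pool.Agent.IGQ

open Pool.Agent.IGP Pool.Agent.IGP.Part Relation

variable {n : ℕ}


/-! ### the words -/

section words

variable (e e' e1 : Idem (Part n))

/-- `(e e')^N e e1` -/
def alt : ℕ → List (Idem (Part n))
  | 0 => [e, e1]
  | N + 1 => e :: e' :: alt N

theorem alt_length (N : ℕ) : (alt e e' e1 N).length = 2 * N + 2 := by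
  induction N with
  | zero => rfl
  | succ N ih => simp only [alt, List.length_cons, ih]; ring

theorem alt_ne (N : ℕ) : alt e e' e1 N ≠ [] := by
  cases N <;> simp [alt]

theorem alt_cons (N : ℕ) : ∃ w, alt e e' e1 N = e :: w := by
  cases N with
  | zero => exact ⟨_, rfl⟩
  | succ N => exact ⟨_, rfl⟩

variable {e e' e1}

theorem alt_G {G : IG (Part n)} (h : G * IG.x e = IG.x e * G) (h' : G * IG.x e' = IG.x e' * G)
    (h1 : G * IG.x e1 = IG.x e1) (N : ℕ) :
    G * IG.word (alt e e' e1 N) = IG.word (alt e e' e1 N) := by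
  induction N with
  | zero =>
    simp only [alt, IG.word_cons, IG.word_nil, mul_one]
    rw [← mul_assoc, h, mul_assoc, h1]
  | succ N ih =>
    simp only [alt, IG.word_cons]
    rw [← mul_assoc, h, mul_assoc, ← mul_assoc G, h', mul_assoc, ih]

theorem alt_valid (h1 : Drop (prk : Part n → ℕ) e.1 e'.1) (h2 : Drop (prk : Part n → ℕ) e'.1 e.1) (h3 : Drop (prk : Part n → ℕ) e.1 e1.1)
    (N : ℕ) : List.IsChain (Drop (prk : Part n → ℕ)) ((alt e e' e1 N).map Subtype.val) := by
  induction N with
  | zero =>
    simp only [alt, List.map_cons, List.map_nil]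
    rw [List.isChain_cons_cons]
    exact ⟨h3, List.IsChain.singleton _⟩
  | succ N ih =>
    obtain ⟨w, hw⟩ := alt_cons e e' e1 N
    simp only [alt]
    rw [hw] at ih ⊢
    simp only [List.map_cons] at ih ⊢
    rw [List.isChain_cons_cons, List.isChain_cons_cons]
    exact ⟨h1, h2, ih⟩

theorem alt_split (N : ℕ) : ∀ v1 d v2, alt e e' e1 N = v1 ++ d :: v2 →
    v2 = [] ∨ ∀ a ∈ v1 ++ [d], a = e ∨ a = e' := by
  induction N with
  | zero =>
    intro v1 d v2 h
    simp only [alt] at h
    rcases v1 with _ | ⟨a, v1⟩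
    · simp only [List.nil_append, List.cons.injEq] at h
      right
      intro a ha
      simp only [List.nil_append, List.mem_singleton] at ha
      left
      rw [ha, h.1]
    · rcases v1 with _ | ⟨b, v1⟩
      · simp only [List.cons_append, List.nil_append, List.cons.injEq] at h
        left
        exact h.2.2.symm
      · exfalso
        have := congrArg List.length h
        simp at this
  | succ N ih =>
    intro v1 d v2 h
    simp only [alt] at h
    rcases v1 with _ | ⟨a, v1⟩
    · simp only [List.nil_append, List.cons.injEq] at h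
      right
      intro a ha
      simp only [List.nil_append, List.mem_singleton] at ha
      left
      rw [ha, h.1]
    · rcases v1 with _ | ⟨b, v1⟩
      · simp only [List.cons_append, List.nil_append, List.cons.injEq] at h
        right
        intro c hc
        simp only [List.cons_append, List.nil_append, List.mem_cons, List.not_mem_nil,
          or_false] at hc
        rcases hc with rfl | rfl
        · left; exact h.1.symm
        · right; exact h.2.1.symm
      · simp only [List.cons_append, List.cons.injEq] at h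
        obtain ⟨rfl, rfl, h⟩ := h
        rcases ih v1 d v2 h with h1 | h1
        · left; exact h1
        · right
          intro c hc
          simp only [List.cons_append, List.mem_cons] at hc
          rcases hc with rfl | rfl | hc
          · left; rfl
          · right; rfl
          · exact h1 c hc

end words

/-! ### the initial mark -/

section mark

variable {e e' e1 : Idem (Part n)} {j : Fin n}

/-- the indicator of the point `j` -/
def ind (j : Fin n) : Fin n → ZMod 2 := fun i => if i = j then 1 else 0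

theorem ind_self (j : Fin n) : ind j j = 1 := if_pos rfl

theorem ind_ne {i j : Fin n} (h : i ≠ j) : ind j i = 0 := if_neg h

theorem B_alt (he : B e.1 (ind j) (ind j)) (he' : B e'.1 (ind j) (ind j))
    (he1 : B e1.1 (ind j) 0) (N : ℕ) : B (IG.prodW (alt e e' e1 N)) (ind j) 0 := by
  induction N with
  | zero =>
    simp only [alt, IG.prodW_cons, IG.prodW_nil, mul_one]
    exact (B_mul _ _ _ _).2 ⟨_, he, he1⟩
  | succ N ih =>
    simp only [alt, IG.prodW_cons]
    exact (B_mul _ _ _ _).2 ⟨_, he, (B_mul _ _ _ _).2 ⟨_, he', ih⟩⟩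

theorem strand {w : List (Idem (Part n))} (h : ∀ a ∈ w, ∀ f g, B a.1 f g → f j = g j) :
    ∀ f g, B (IG.prodW w) f g → f j = g j := by
  induction w with
  | nil =>
    intro f g hfg
    rw [IG.prodW_nil, B_one] at hfg
    rw [hfg]
  | cons a w ih =>
    intro f g hfg
    rw [IG.prodW_cons] at hfg
    obtain ⟨k, h1, h2⟩ := (B_mul _ _ _ _).1 hfg
    rw [h a (by simp) f k h1]
    exact ih (fun b hb => h b (List.mem_cons_of_mem _ hb)) k g h2

theorem InvL_init (he : B e.1 (ind j) (ind j)) (he' : B e'.1 (ind j) (ind j))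
    (he1 : B e1.1 (ind j) 0) (he1' : B e1.1 0 (ind j)) (N : ℕ) :
    InvL [e1] (alt e e' e1 N) j := by
  refine ⟨?_, ?_⟩
  · intro h
    have := h (ind j) 0 (by simpa using he1') (B_alt he he' he1 N)
    rw [ind_self] at this
    exact one_ne_zero this
  · intro u1 d u2 h _ _
    rcases u1 with _ | ⟨a, u1⟩
    · simp only [List.nil_append, List.cons.injEq] at h
      rw [← h.1]
      simp only [List.nil_append, IG.word_cons, IG.word_nil, mul_one]
      rw [← IG.X_idem]
      exact isReg_X isRank_prk e1.2
    · simp at h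

theorem InvR_init (he : B e.1 (ind j) (ind j)) (he' : B e'.1 (ind j) (ind j))
    (he1 : B e1.1 (ind j) 0) (he1' : B e1.1 0 (ind j))
    (hs : ∀ f g, B e.1 f g → f j = g j) (hs' : ∀ f g, B e'.1 f g → f j = g j) (N : ℕ) :
    InvR [e1] (alt e e' e1 N) j := by
  refine ⟨?_, ?_⟩
  · intro h
    have := h 0 (ind j) (by simpa using he1') (B_alt he he' he1 N)
    rw [ind_self] at this
    exact one_ne_zero this
  · intro v1 d v2 h _ h2
    rcases alt_split N v1 d v2 h with h3 | h3
    · rw [h3]
      simp only [IG.word_cons, IG.word_nil, mul_one]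
      rw [← IG.X_idem]
      exact isReg_X isRank_prk d.2
    · exfalso
      apply h2
      intro f g _ h5
      have h6 : IG.prodW v1 * d.1 = IG.prodW (v1 ++ [d]) := by simp
      rw [h6] at h5
      have h7 := strand (w := v1 ++ [d]) (j := j) (fun a ha => by
        rcases h3 a ha with rfl | rfl
        · exact hs
        · exact hs') g 0 h5
      rw [h7]
      rfl

end mark

/-! ### encoding of letters -/

section encode

variable {A : Type}

/-- replace every letter by its word over the idempotents -/
def enc (ew : A → List (Idem (Part n))) (c : List A) : List (Idem (Part n)) :=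
  (c.map ew).flatten

theorem enc_word (ew : A → List (Idem (Part n))) (c : List A) :
    IG.word (enc ew c) = (c.map fun a => IG.word (ew a)).prod := by
  unfold enc
  rw [IG.word_flatten, List.map_map]
  rfl

theorem enc_length {ew : A → List (Idem (Part n))} {Λ : ℕ} (h : ∀ a, (ew a).length ≤ Λ)
    (c : List A) : (enc ew c).length ≤ Λ * c.length := by
  unfold enc
  induction c with
  | nil => simp
  | cons a c ih =>
    simp only [List.map_cons, List.flatten_cons, List.length_append, List.length_cons]
    have := h a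
    rw [mul_add, mul_one]
    omega

end encode

/-- the system of long marks -/
noncomputable def sysOf (L : LSys (IG (Part n))) (t : IG (Part n)) {Λ : ℕ}
    (ew : L.A → List (Idem (Part n))) (hew : ∀ a, IG.word (ew a) = L.val a)
    (hΛ : ∀ a, (ew a).length ≤ Λ)
    (hL : ∀ X m Y : List (Idem (Part n)), X ≠ [] → Y ≠ [] → IsReg (prk : Part n → ℕ) (IG.word X) →
      IsReg (prk : Part n → ℕ) (IG.word Y) → IG.word (X ++ m ++ Y) = t → Λ * L.K < m.length) :
    Sys L.A (IG (Part n)) n where
  val := L.val
  π := IG.pi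
  R := L.R
  K := L.K
  P := PP t
  sound := L.sound
  len := L.len
  wf := L.wf
  conf := L.conf
  P1 := fun x s y i j h => PP_P1 t x s y i j h
  P2 := by
    intro c1 c2 hc X Y i h
    have e1 : ∀ c : List L.A, (c.map L.val).prod = IG.word (enc ew c) := by
      intro c
      rw [enc_word]
      congr 1
      refine List.map_congr_left fun a _ => (hew a).symm
    rw [e1, e1] at h
    have h1 := enc_length hΛ c1
    have h2 := enc_length hΛ c2
    have h3 : (enc ew c1).length + (enc ew c2).length ≤ Λ * L.K := by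
      calc (enc ew c1).length + (enc ew c2).length ≤ Λ * c1.length + Λ * c2.length :=
            add_le_add h1 h2
        _ = Λ * (c1.length + c2.length) := by ring
        _ ≤ Λ * L.K := Nat.mul_le_mul_left _ hc
    have h4 := PP_P2 hL h3 X Y i h
    rw [← e1, ← e1] at h4
    exact h4

theorem no_lsys (hn : 5 ≤ n) (L : LSys (IG (Part n))) : False := by
  classical
  -- points
  let j : Fin n := ⟨0, by omega⟩
  let k : Fin n := ⟨1, by omega⟩
  let s : Fin n := ⟨2, by omega⟩
  let x : Fin n := ⟨3, by omega⟩
  let y : Fin n := ⟨4, by omega⟩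
  have hjk : j ≠ k := by simp [j, k]
  have hjs : j ≠ s := by simp [j, s]
  have hks : k ≠ s := by simp [k, s]
  have hxj : x ≠ j := by simp [x, j]
  have hxk : x ≠ k := by simp [x, k]
  have hxs : x ≠ s := by simp [x, s]
  have hyj : y ≠ j := by simp [y, j]
  have hyk : y ≠ k := by simp [y, k]
  have hys : y ≠ s := by simp [y, s]
  have hxy : x ≠ y := by simp [x, y]
  clear_value j k s x y
  have idem_pr : ∀ {r : ℕ} (a : Fin r → Fin n), pr a * pr a = pr a := by
    intro r a
    apply B_inj
    intro f g
    rw [B_mul, B_pr]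
    constructor
    · rintro ⟨h, h1, h2⟩ i
      rw [B_pr] at h1 h2
      rw [h1, h2]
    · intro h
      refine ⟨f, (B_pr _ _ _).2 fun i => rfl, (B_pr _ _ _).2 h⟩
  let e : Idem (Part n) := ⟨pr ![j, k, y], idem_pr _⟩
  let e' : Idem (Part n) := ⟨pr ![j, k, x], idem_pr _⟩
  let e1 : Idem (Part n) := ⟨pr ![x], idem_pr _⟩
  have Xe : IG.X (pr ![j, k, y]) = IG.x e := IG.X_idem e
  have Xe' : IG.X (pr ![j, k, x]) = IG.x e' := IG.X_idem e'
  have Xe1 : IG.X (pr ![x]) = IG.x e1 := IG.X_idem e1
  have hGe := G_e hn hjk hjs hks hyj hyk hys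
  have hGe' := G_e hn hjk hjs hks hxj hxk hxs
  have hGe1 := G_e1 hn hjk hjs hks hxj hxk hxs
  have he1G := e1_G hjk hjs hks hxj hxk hxs
  rw [Xe] at hGe
  rw [Xe'] at hGe'
  rw [Xe1] at hGe1 he1G
  -- letters as words over the idempotents
  have hex : ∀ a : L.A, ∃ w : List (Idem (Part n)), IG.word w = L.val a := by
    intro a
    obtain ⟨w, _, hw⟩ := IG.exists_word (L.val a)
    exact ⟨w, hw⟩
  choose ew hew using hex
  have := L.fin
  have := Fintype.ofFinite L.A
  let Λ : ℕ := Finset.univ.sup fun a => (ew a).length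
  have hΛ : ∀ a, (ew a).length ≤ Λ := fun a =>
    Finset.le_sup (f := fun a => (ew a).length) (Finset.mem_univ a)
  let N : ℕ := Λ * L.K + 2
  let v : List (Idem (Part n)) := alt e e' e1 N
  let t : IG (Part n) := IG.x e1 * IG.word v
  have hL : ∀ X m Y : List (Idem (Part n)), X ≠ [] → Y ≠ [] → IsReg (prk : Part n → ℕ) (IG.word X) →
      IsReg (prk : Part n → ℕ) (IG.word Y) → IG.word (X ++ m ++ Y) = t → Λ * L.K < m.length := by
    intro X m Y hX0 hY0 hX hY h
    let ws : List (List (Idem (Part n))) := (e1 :: v).map fun a => [a]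
    have hfl : ws.flatten = e1 :: v := by
      simp only [ws]
      rw [← List.flatMap_def]
      simp
    have hreg : ∀ u ∈ ws, IsRegW (prk : Part n → ℕ) u := by
      intro u hu
      obtain ⟨a, _, rfl⟩ := List.mem_map.1 hu
      exact ⟨a, by simp, by simp⟩
    have hval : Valid (prk : Part n → ℕ) (ws.map IG.prodW) := by
      have h1 : ws.map IG.prodW = (e1 :: v).map Subtype.val := by
        simp only [ws]
        rw [List.map_map]
        refine List.map_congr_left fun a _ => by simp
      rw [h1]
      unfold Valid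
      have h2 := alt_valid (e := e) (e' := e') (e1 := e1)
        (drop_ee hjk hxj hxk hyj hyk hxy) (drop_ee hjk hyj hyk hxj hxk hxy.symm)
        (drop_ee1 hjk hxj hxk hyj hyk hxy) N
      obtain ⟨w, hw⟩ := alt_cons e e' e1 N
      rw [List.map_cons]
      rw [hw] at h2
      have hv : v = e :: w := hw
      rw [hv]
      rw [List.map_cons] at h2 ⊢
      rw [List.isChain_cons_cons]
      exact ⟨drop_e1e hjk hxj hxk hyj hyk hxy, h2⟩
    have h5 := long isRank_prk hreg hval hX hX0 hY hY0 (by
      rw [hfl, h, IG.word_cons])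
    have h6 : ws.length = 2 * N + 3 := by
      simp only [ws]
      rw [List.length_map, List.length_cons]
      have := alt_length e e' e1 N
      simp only [v]
      omega
    rw [h6] at h5
    simp only [N] at h5
    omega
  let σ := sysOf L t ew hew hΛ hL
  have hφ : ∀ w : List L.A, σ.phi w = (w.map L.val).prod := fun _ => rfl
  have hπ : σ.π = IG.pi := rfl
  -- the words over `A`
  obtain ⟨U, hU⟩ := L.surj (IG.x e1)
  obtain ⟨V, hV⟩ := L.surj (IG.word v)
  obtain ⟨G, hG⟩ := L.surj (GG j k s)
  have hGv : GG j k s * IG.word v = IG.word v := alt_G hGe hGe' hGe1 N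
  -- the colouring `ind j`
  have hBe : B e.1 (ind j) (ind j) := (B_pr _ _ _).2 fun _ => rfl
  have hBe' : B e'.1 (ind j) (ind j) := (B_pr _ _ _).2 fun _ => rfl
  have hBe1 : B e1.1 (ind j) 0 := (B_pr _ _ _).2 fun i => by
    fin_cases i
    exact ind_ne hxj
  have hBe1' : B e1.1 0 (ind j) := (B_pr _ _ _).2 fun i => by
    fin_cases i
    exact (ind_ne hxj).symm
  have hse : ∀ f g, B e.1 f g → f j = g j := fun f g h => (B_pr _ _ _).1 h 0
  have hse' : ∀ f g, B e'.1 f g → f j = g j := fun f g h => (B_pr _ _ _).1 h 0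
  have hBv : B (IG.prodW v) (ind j) 0 := B_alt hBe hBe' hBe1 N
  have hpi1 : IG.pi (IG.x e1) = e1.1 := rfl
  have hpiv : IG.pi (IG.word v) = IG.prodW v := IG.pi_word v
  -- the words are not empty
  have hU0 : U ≠ [] := by
    rintro rfl
    simp only [List.map_nil, List.prod_nil] at hU
    have h1 := congrArg IG.pi hU
    rw [map_one, hpi1] at h1
    rw [← h1, B_one] at hBe1
    have h2 := congrFun hBe1 j
    rw [ind_self] at h2
    exact one_ne_zero h2
  have hV0 : V ≠ [] := by
    rintro rfl
    simp only [List.map_nil, List.prod_nil] at hV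
    have h1 := congrArg IG.pi hV
    rw [map_one, hpiv] at h1
    rw [← h1, B_one] at hBv
    have h2 := congrFun hBv j
    rw [ind_self] at h2
    exact one_ne_zero h2
  have h1 : EqvGen (Red σ.R) (U ++ G) U := L.complete _ _ (by simp [hU0]) hU0 (by
    rw [List.map_append, List.prod_append, hU, hG, he1G])
  have h2 : EqvGen (Red σ.R) V (G ++ V) := L.complete _ _ hV0 (by simp [hV0]) (by
    rw [List.map_append, List.prod_append, hV, hG, hGv])
  have h3 : CS (σ.π (σ.phi U)) (σ.π (σ.phi G)) (σ.π (σ.phi V)) j k := by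
    rw [hφ, hφ, hφ, hU, hV, hG, hπ]
    intro f g g' f' _ h5 _
    exact ((B_GG hjk hjs hks g g').1 h5).2.1.symm
  have h4 : σ.P (σ.phi U) j (σ.phi V) := by
    rw [hφ, hφ, hU, hV]
    have h5 : IG.x e1 = IG.word [e1] := by simp
    rw [h5]
    refine (PP_word (by simp) (alt_ne e e' e1 N)).2 ⟨?_, ?_, ?_⟩
    · rw [← h5]
    · exact InvL_init hBe hBe' hBe1 hBe1' N
    · exact InvR_init hBe hBe' hBe1 hBe1' hse hse' N
  have h6 := σ.main h1 h2 h3 h4
  rw [hφ, hφ, hU, hV, hπ, hpi1, hpiv] at h6
  have h7 := h6 0 (ind j) (ind j) 0 hBe1' ((B_one _ _).2 rfl) hBv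
  rw [ind_self, ind_ne hjk.symm] at h7
  exact one_ne_zero h7

theorem no_fcrs (hn : 5 ≤ n) : ¬ HasFCRS (IG (Part n)) := fun h => no_lsys hn h.lsys.some

theorem no_monoid_fcrs (hn : 5 ≤ n) : ¬ HasMonoidFCRS (IG (Part n)) :=
  fun h => no_lsys hn h.lsys.some

end Pool.Agent.IGQ
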