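import Pool.Agent.IGQ.Col

/-! MP_e3ace9_al, Q1.  A complete rewriting system only allows short components of the stacked
picture to have monodromy.

`Sys` is a complete rewriting system over an alphabet `A` for (a part of) a monoid `T` with a
homomorphism `π` to the partition monoid, together with a set `P` of marked factorisations
`(x, i, y)` (`i` is a point between `x` and `y`) which is closed under connectedness (`P1`) and
consists of long components (`P2`).  Marked words `(U, V, i)` are rewritten by applying rules to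
`U` or `V`, up to connectedness.  This rewriting is terminating and locally confluent, so normal
forms are unique.  -/

namespace Pool.Agent.IGQ

open Pool.Agent.IGP Pool.Agent.IGP.Part Relation

variable {n : ℕ} {A : Type} {T : Type} [Monoid T]

/-- one application of a rule -/
inductive Red (R : List A → List A → Prop) : List A → List A → Prop
  | mk (x l r y : List A) (h : R l r) : Red R (x ++ l ++ y) (x ++ r ++ y)

theorem Red.ctx {R : List A → List A → Prop} {u v : List A} (h : Red R u v) (x y : List A) :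
    Red R (x ++ u ++ y) (x ++ v ++ y) := by
  cases h with
  | mk a l r b h =>
    have := Red.mk (x ++ a) l r (b ++ y) h
    simpa [List.append_assoc] using this

/-- A complete rewriting system, compatible with `val : A → T`, and a set of long marks. -/
structure Sys (A : Type) (T : Type) [Monoid T] (n : ℕ) where
  val : A → T
  π : T →* Part n
  R : List A → List A → Prop
  K : ℕ
  P : T → Fin n → T → Prop
  sound : ∀ l r, R l r → (l.map val).prod = (r.map val).prod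
  len : ∀ l r, R l r → 2 * l.length ≤ K
  wf : WellFounded (fun w' w => Red R w w')
  conf : ∀ u v w, ReflTransGen (Red R) u v → ReflTransGen (Red R) u w →
    ∃ z, ReflTransGen (Red R) v z ∧ ReflTransGen (Red R) w z
  P1 : ∀ x s y i j, CS (π x) (π s) (π y) i j → (P x i (s * y) ↔ P (x * s) j y)
  P2 : ∀ c1 c2 : List A, c1.length + c2.length ≤ K → ∀ X Y i,
    P (X * (c1.map val).prod) i ((c2.map val).prod * Y) →
    (∃ j, CS (π X) (π (c1.map val).prod) (π ((c2.map val).prod * Y)) j i) ∨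
    (∃ j, CS (π (X * (c1.map val).prod)) (π (c2.map val).prod) (π Y) i j)

/-- marked words -/
@[ext] structure Mk (A : Type) (n : ℕ) where
  U : List A
  V : List A
  i : Fin n

namespace Sys

variable (σ : Sys A T n)

/-- value of a word -/
def phi (w : List A) : T := (w.map σ.val).prod

/-- the word of partitions -/
def rho (w : List A) : List (Part n) := w.map fun a => σ.π (σ.val a)

@[simp] theorem phi_append (u v : List A) : σ.phi (u ++ v) = σ.phi u * σ.phi v := by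
  simp [phi]

@[simp] theorem rho_append (u v : List A) : σ.rho (u ++ v) = σ.rho u ++ σ.rho v := by
  simp [rho]

@[simp] theorem rho_length (u : List A) : (σ.rho u).length = u.length := by
  simp [rho]

theorem rho_prod (w : List A) : (σ.rho w).prod = σ.π (σ.phi w) := by
  rw [phi, map_list_prod, List.map_map]
  rfl

/-- connectedness of marks of the same word -/
def Cn (m m' : Mk A n) : Prop :=
  m.U ++ m.V = m'.U ++ m'.V ∧
    ∀ F, Col (σ.rho (m.U ++ m.V)) F → F m.U.length m.i = F m'.U.length m'.i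

theorem Cn.refl (m : Mk A n) : σ.Cn m m := ⟨rfl, fun _ _ => rfl⟩

variable {σ}

theorem Cn.symm {m m' : Mk A n} (h : σ.Cn m m') : σ.Cn m' m :=
  ⟨h.1.symm, fun F hF => (h.2 F (by rw [h.1]; exact hF)).symm⟩

theorem Cn.trans {m m' m'' : Mk A n} (h : σ.Cn m m') (h' : σ.Cn m' m'') : σ.Cn m m'' :=
  ⟨h.1.trans h'.1, fun F hF => (h.2 F hF).trans (h'.2 F (by rw [← h.1]; exact hF))⟩

variable (σ)

/-- marks in `P` -/
def PM (m : Mk A n) : Prop := σ.P (σ.phi m.U) m.i (σ.phi m.V)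

/-- connectedness of marks in terms of `CS` -/
theorem Cn_of_CS {U s V : List A} {i j : Fin n}
    (h : CS (σ.π (σ.phi U)) (σ.π (σ.phi s)) (σ.π (σ.phi V)) i j) :
    σ.Cn ⟨U, s ++ V, i⟩ ⟨U ++ s, V, j⟩ := by
  refine ⟨by simp, fun F hF => ?_⟩
  rw [← σ.rho_prod, ← σ.rho_prod, ← σ.rho_prod, CS_iff] at h
  have h1 := h F (by simpa [List.append_assoc] using hF)
  simpa using h1

theorem CS_of_Cn {U s V : List A} {i j : Fin n}
    (h : σ.Cn ⟨U, s ++ V, i⟩ ⟨U ++ s, V, j⟩) :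
    CS (σ.π (σ.phi U)) (σ.π (σ.phi s)) (σ.π (σ.phi V)) i j := by
  rw [← σ.rho_prod, ← σ.rho_prod, ← σ.rho_prod, CS_iff]
  intro F hF
  have h1 := h.2 F (by simpa [List.append_assoc] using hF)
  simpa using h1

variable {σ}

theorem PM_Cn_aux {m m' : Mk A n} (h : σ.Cn m m') {s : List A} (h1 : m'.U = m.U ++ s)
    (h2 : m.V = s ++ m'.V) : σ.PM m ↔ σ.PM m' := by
  obtain ⟨U, V, i⟩ := m
  obtain ⟨U', V', j⟩ := m'
  simp only at h1 h2
  subst h1 h2
  have h3 := σ.P1 _ _ _ _ _ (σ.CS_of_Cn h)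
  simpa [PM] using h3

theorem PM_Cn {m m' : Mk A n} (h : σ.Cn m m') : σ.PM m ↔ σ.PM m' := by
  rcases List.append_eq_append_iff.1 h.1 with ⟨s, h1, h2⟩ | ⟨s, h1, h2⟩
  · exact PM_Cn_aux h h1 h2
  · exact (PM_Cn_aux h.symm h1 h2).symm

/-- a mark outside of the factor `c` -/
def Out (X c Y : List A) (m : Mk A n) : Prop :=
  (∃ x2, X = m.U ++ x2 ∧ m.V = x2 ++ c ++ Y) ∨ (∃ y1, Y = y1 ++ m.V ∧ m.U = X ++ c ++ y1)

/-- replacing the factor `l` by `r`, the mark being outside. -/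
def Mv (x l r y : List A) (m m' : Mk A n) : Prop :=
  m'.i = m.i ∧ ((∃ x2, x = m.U ++ x2 ∧ m.V = x2 ++ l ++ y ∧ m'.U = m.U ∧ m'.V = x2 ++ r ++ y) ∨
    (∃ y1, y = y1 ++ m.V ∧ m.U = x ++ l ++ y1 ∧ m'.V = m.V ∧ m'.U = x ++ r ++ y1))

theorem Mv.symm {x l r y : List A} {m m' : Mk A n} (h : Mv x l r y m m') : Mv x r l y m' m := by
  rcases h with ⟨h0, ⟨x2, h1, h2, h3, h4⟩ | ⟨y1, h1, h2, h3, h4⟩⟩
  · exact ⟨h0.symm, Or.inl ⟨x2, by rw [h3, h1], h4, h3.symm, h2⟩⟩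
  · exact ⟨h0.symm, Or.inr ⟨y1, by rw [h3, h1], h4, h3.symm, h2⟩⟩

theorem Mv.word {x l r y : List A} {m m' : Mk A n} (h : Mv x l r y m m') :
    m.U ++ m.V = x ++ l ++ y ∧ m'.U ++ m'.V = x ++ r ++ y := by
  rcases h with ⟨_, ⟨x2, h1, h2, h3, h4⟩ | ⟨y1, h1, h2, h3, h4⟩⟩
  · rw [h3, h4, h2, h1]
    simp [List.append_assoc]
  · rw [h3, h4, h2, h1]
    simp [List.append_assoc]

theorem Mv.row {x l r y : List A} {m m' : Mk A n} (h : Mv x l r y m m')
    {F F' : ℕ → Fin n → ZMod 2} (h1 : ∀ s ≤ x.length, F' s = F s)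
    (h2 : ∀ s, F' (x.length + r.length + s) = F (x.length + l.length + s)) :
    F' m'.U.length = F m.U.length := by
  rcases h with ⟨_, ⟨x2, h3, h4, h5, h6⟩ | ⟨y1, h3, h4, h5, h6⟩⟩
  · rw [h5]
    apply h1
    rw [h3, List.length_append]
    omega
  · rw [h6, h4]
    simp only [List.length_append]
    exact h2 _

/-- connectedness is preserved when a factor is replaced by another one with the same product. -/
theorem transfer {x l r y : List A} (hlr : σ.phi l = σ.phi r) {a a' b b' : Mk A n}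
    (ha : Mv x l r y a a') (hb : Mv x l r y b b') (h : σ.Cn a b) : σ.Cn a' b' := by
  refine ⟨ha.word.2.trans hb.word.2.symm, fun F hF => ?_⟩
  rw [ha.word.2, rho_append, rho_append] at hF
  have hp : (σ.rho r).prod = (σ.rho l).prod := by rw [rho_prod, rho_prod, hlr]
  obtain ⟨G, hG, h1, h2⟩ := Col_splice hp hF
  simp only [rho_length] at h1 h2
  have h3 := h.2 G (by rw [ha.word.1, rho_append, rho_append]; exact hG)
  rw [ha.symm.row h1 h2, hb.symm.row h1 h2, ← ha.1, ← hb.1] at h3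
  exact h3

theorem Mv.PM {x l r y : List A} (hlr : σ.phi l = σ.phi r) {m m' : Mk A n}
    (h : Mv x l r y m m') : σ.PM m ↔ σ.PM m' := by
  rcases h with ⟨h0, ⟨x2, h1, h2, h3, h4⟩ | ⟨y1, h1, h2, h3, h4⟩⟩
  · unfold Sys.PM
    rw [h0, h3, h4, h2]
    simp only [phi_append, hlr]
  · unfold Sys.PM
    rw [h0, h3, h4, h2]
    simp only [phi_append, hlr]

/-- a mark inside a short factor is connected with a mark at the boundary. -/
theorem rep_in {X c1 c2 Y : List A} (hc : c1.length + c2.length ≤ σ.K) {i : Fin n}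
    (h : σ.PM ⟨X ++ c1, c2 ++ Y, i⟩) :
    (∃ j, σ.Cn ⟨X ++ c1, c2 ++ Y, i⟩ ⟨X, c1 ++ c2 ++ Y, j⟩) ∨
    (∃ j, σ.Cn ⟨X ++ c1, c2 ++ Y, i⟩ ⟨X ++ c1 ++ c2, Y, j⟩) := by
  have h1 : σ.P (σ.phi X * (c1.map σ.val).prod) i ((c2.map σ.val).prod * σ.phi Y) := by
    have := h
    unfold Sys.PM at this
    rw [phi_append, phi_append] at this
    exact this
  rcases σ.P2 c1 c2 hc _ _ _ h1 with ⟨j, hj⟩ | ⟨j, hj⟩
  · left
    refine ⟨j, Cn.symm ?_⟩
    have h2 : CS (σ.π (σ.phi X)) (σ.π (σ.phi c1)) (σ.π (σ.phi (c2 ++ Y))) j i := by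
      rw [phi_append]
      exact hj
    have h3 := σ.Cn_of_CS h2
    rw [← List.append_assoc] at h3
    exact h3
  · right
    refine ⟨j, ?_⟩
    have h2 : CS (σ.π (σ.phi (X ++ c1))) (σ.π (σ.phi c2)) (σ.π (σ.phi Y)) i j := by
      rw [phi_append]
      exact hj
    exact σ.Cn_of_CS h2

/-- every mark is connected with a mark outside of a given short factor. -/
theorem rep {X c Y : List A} (hc : c.length ≤ σ.K) {m : Mk A n} (hm : m.U ++ m.V = X ++ c ++ Y)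
    (h : σ.PM m) : ∃ m', σ.Cn m m' ∧ Out X c Y m' := by
  obtain ⟨U, V, i⟩ := m
  simp only at hm
  rw [List.append_assoc] at hm
  rcases List.append_eq_append_iff.1 hm with ⟨s, h1, h2⟩ | ⟨s, h1, h2⟩
  · -- X = U ++ s
    exact ⟨_, Cn.refl σ _, Or.inl ⟨s, h1, by simp only; rw [h2, List.append_assoc]⟩⟩
  · -- U = X ++ s, c ++ Y = s ++ V
    rcases List.append_eq_append_iff.1 h2 with ⟨t, h3, h4⟩ | ⟨t, h3, h4⟩
    · -- s = c ++ t, Y = t ++ V
      exact ⟨_, Cn.refl σ _, Or.inr ⟨t, h4, by simp only; rw [h1, h3, List.append_assoc]⟩⟩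
    · -- c = s ++ t, V = t ++ Y
      subst h1 h3 h4
      rw [List.length_append] at hc
      rcases rep_in hc h with ⟨j, hj⟩ | ⟨j, hj⟩
      · exact ⟨_, hj, Or.inl ⟨[], by simp, by simp⟩⟩
      · exact ⟨_, hj, Or.inr ⟨[], by simp, by simp⟩⟩

/-- application of a rule to one side of a marked word -/
def MS (σ : Sys A T n) (m m' : Mk A n) : Prop :=
  m'.i = m.i ∧ ((m'.U = m.U ∧ Red σ.R m.V m'.V) ∨ (m'.V = m.V ∧ Red σ.R m.U m'.U))

theorem MS_iff {m m' : Mk A n} : σ.MS m m' ↔ ∃ x l r y, σ.R l r ∧ Mv x l r y m m' := by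
  constructor
  · rintro ⟨h0, ⟨h1, h2⟩ | ⟨h1, h2⟩⟩
    · obtain ⟨U, V, i⟩ := m
      obtain ⟨U', V', i'⟩ := m'
      simp only at h0 h1 h2
      cases h2 with
      | mk x l r y h =>
        exact ⟨U ++ x, l, r, y, h, h0, Or.inl ⟨x, rfl, rfl, h1, rfl⟩⟩
    · obtain ⟨U, V, i⟩ := m
      obtain ⟨U', V', i'⟩ := m'
      simp only at h0 h1 h2
      cases h2 with
      | mk x l r y h =>
        exact ⟨x, l, r, y ++ V, h, h0, Or.inr ⟨y, rfl, rfl, h1, rfl⟩⟩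
  · rintro ⟨x, l, r, y, h, h0, ⟨x2, h1, h2, h3, h4⟩ | ⟨y1, h1, h2, h3, h4⟩⟩
    · exact ⟨h0, Or.inl ⟨h3, by rw [h2, h4]; exact Red.mk x2 l r y h⟩⟩
    · exact ⟨h0, Or.inr ⟨h3, by rw [h2, h4]; exact Red.mk x l r y1 h⟩⟩

theorem sound' {l r : List A} (h : σ.R l r) : σ.phi l = σ.phi r := σ.sound l r h

theorem MS.PM {m m' : Mk A n} (h : σ.MS m m') : σ.PM m ↔ σ.PM m' := by
  obtain ⟨x, l, r, y, h1, h2⟩ := MS_iff.1 h
  exact h2.PM (sound' h1)

theorem MS.red {m m' : Mk A n} (h : σ.MS m m') : Red σ.R (m.U ++ m.V) (m'.U ++ m'.V) := by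
  obtain ⟨x, l, r, y, h1, h2⟩ := MS_iff.1 h
  rw [h2.word.1, h2.word.2]
  exact Red.mk x l r y h1

/-- one step of tracked reduction -/
def TR (σ : Sys A T n) (m m' : Mk A n) : Prop := ∃ a b, σ.Cn m a ∧ σ.MS a b ∧ σ.Cn b m'

theorem TR.PM {m m' : Mk A n} (h : σ.TR m m') : σ.PM m ↔ σ.PM m' := by
  obtain ⟨a, b, h1, h2, h3⟩ := h
  exact (PM_Cn h1).trans (h2.PM.trans (PM_Cn h3))

theorem TR.red {m m' : Mk A n} (h : σ.TR m m') : Red σ.R (m.U ++ m.V) (m'.U ++ m'.V) := by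
  obtain ⟨a, b, h1, h2, h3⟩ := h
  rw [h1.1, ← h3.1]
  exact h2.red

/-- reachability, up to connectedness -/
def reach (σ : Sys A T n) (m m' : Mk A n) : Prop := ∃ d, ReflTransGen σ.TR m d ∧ σ.Cn d m'

theorem reach_of_Cn {m m' : Mk A n} (h : σ.Cn m m') : σ.reach m m' := ⟨m, .refl, h⟩

theorem reach_of_MS {m m' : Mk A n} (h : σ.MS m m') : σ.reach m m' :=
  ⟨m', .single ⟨m, m', Cn.refl σ m, h, Cn.refl σ m'⟩, Cn.refl σ m'⟩

theorem Cn.reach {m m1 m' : Mk A n} (h : σ.Cn m m1) (h' : σ.reach m1 m') : σ.reach m m' := by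
  obtain ⟨d, h1, h2⟩ := h'
  rcases ReflTransGen.cases_head h1 with rfl | ⟨e, ⟨a, b, h3, h4, h5⟩, h6⟩
  · exact reach_of_Cn (h.trans h2)
  · exact ⟨d, .head ⟨a, b, h.trans h3, h4, h5⟩ h6, h2⟩

theorem reach.trans {m m1 m' : Mk A n} (h : σ.reach m m1) (h' : σ.reach m1 m') :
    σ.reach m m' := by
  obtain ⟨d, h1, h2⟩ := h
  obtain ⟨e, h3, h4⟩ := h2.reach h'
  exact ⟨e, h1.trans h3, h4⟩

theorem TR.reach {m m' : Mk A n} (h : σ.TR m m') : σ.reach m m' :=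
  ⟨m', .single h, Cn.refl σ m'⟩

theorem reach.PM {m m' : Mk A n} (h : σ.reach m m') : σ.PM m ↔ σ.PM m' := by
  obtain ⟨d, h1, h2⟩ := h
  refine Iff.trans ?_ (PM_Cn h2)
  clear h2
  induction h1 with
  | refl => exact Iff.rfl
  | tail _ h ih => exact ih.trans h.PM

theorem ctxL {c z : List A} (h : ReflTransGen (Red σ.R) c z) (U x Y : List A) (i : Fin n) :
    σ.reach ⟨U, x ++ c ++ Y, i⟩ ⟨U, x ++ z ++ Y, i⟩ := by
  induction h with
  | refl => exact reach_of_Cn (Cn.refl σ _)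
  | tail _ h ih =>
    exact ih.trans (reach_of_MS ⟨rfl, Or.inl ⟨rfl, h.ctx x Y⟩⟩)

theorem ctxR {c z : List A} (h : ReflTransGen (Red σ.R) c z) (X y V : List A) (i : Fin n) :
    σ.reach ⟨X ++ c ++ y, V, i⟩ ⟨X ++ z ++ y, V, i⟩ := by
  induction h with
  | refl => exact reach_of_Cn (Cn.refl σ _)
  | tail _ h ih =>
    exact ih.trans (reach_of_MS ⟨rfl, Or.inr ⟨rfl, h.ctx X y⟩⟩)

/-- local confluence, overlapping redexes -/
theorem crit {X Y p l r q p' l' r' q' : List A} (hc : p ++ l ++ q = p' ++ l' ++ q')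
    (hr : σ.R l r) (hr' : σ.R l' r') (hK : (p ++ l ++ q).length ≤ σ.K) {m a1 b1 a2 b2 : Mk A n}
    (hm : σ.PM m) (h1 : σ.Cn m a1) (h2 : σ.Cn m a2) (h3 : Mv (X ++ p) l r (q ++ Y) a1 b1)
    (h4 : Mv (X ++ p') l' r' (q' ++ Y) a2 b2) : ∃ d, σ.reach b1 d ∧ σ.reach b2 d := by
  have hword : m.U ++ m.V = X ++ (p ++ l ++ q) ++ Y := by
    rw [h1.1, h3.word.1]
    simp [List.append_assoc]
  obtain ⟨w, hw, hout⟩ := rep hK hword hm
  obtain ⟨z, hz1, hz2⟩ := σ.conf (p ++ l ++ q) (p ++ r ++ q) (p' ++ r' ++ q')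
    (.single (Red.mk p l r q hr)) (by rw [hc]; exact .single (Red.mk p' l' r' q' hr'))
  obtain ⟨U, V, i⟩ := w
  rcases hout with ⟨x2, h5, h6⟩ | ⟨y1, h5, h6⟩
  · simp only at h5 h6
    subst h5 h6
    have e1 : Mv (U ++ x2 ++ p) l r (q ++ Y) ⟨U, x2 ++ (p ++ l ++ q) ++ Y, i⟩
        ⟨U, x2 ++ (p ++ r ++ q) ++ Y, i⟩ :=
      ⟨rfl, Or.inl ⟨x2 ++ p, by simp, by simp, rfl, by simp⟩⟩
    have e2 : Mv (U ++ x2 ++ p') l' r' (q' ++ Y) ⟨U, x2 ++ (p ++ l ++ q) ++ Y, i⟩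
        ⟨U, x2 ++ (p' ++ r' ++ q') ++ Y, i⟩ :=
      ⟨rfl, Or.inl ⟨x2 ++ p', by simp, by rw [hc]; simp, rfl, by simp⟩⟩
    refine ⟨⟨U, x2 ++ z ++ Y, i⟩, ?_, ?_⟩
    · exact (transfer (sound' hr) h3 e1 (h1.symm.trans hw)).reach (ctxL hz1 U x2 Y i)
    · exact (transfer (sound' hr') h4 e2 (h2.symm.trans hw)).reach (ctxL hz2 U x2 Y i)
  · simp only at h5 h6
    subst h5 h6
    have e1 : Mv (X ++ p) l r (q ++ (y1 ++ V)) ⟨X ++ (p ++ l ++ q) ++ y1, V, i⟩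
        ⟨X ++ (p ++ r ++ q) ++ y1, V, i⟩ :=
      ⟨rfl, Or.inr ⟨q ++ y1, by simp, by simp, rfl, by simp⟩⟩
    have e2 : Mv (X ++ p') l' r' (q' ++ (y1 ++ V)) ⟨X ++ (p ++ l ++ q) ++ y1, V, i⟩
        ⟨X ++ (p' ++ r' ++ q') ++ y1, V, i⟩ :=
      ⟨rfl, Or.inr ⟨q' ++ y1, by simp, by rw [hc]; simp, rfl, by simp⟩⟩
    refine ⟨⟨X ++ z ++ y1, V, i⟩, ?_, ?_⟩
    · exact (transfer (sound' hr) h3 e1 (h1.symm.trans hw)).reach (ctxR hz1 X y1 V i)
    · exact (transfer (sound' hr') h4 e2 (h2.symm.trans hw)).reach (ctxR hz2 X y1 V i)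

/-- marks outside of two disjoint factors -/
theorem rep2 {x l t l' y : List A} (hl : l.length ≤ σ.K) (hl' : l'.length ≤ σ.K) {m : Mk A n}
    (hm : m.U ++ m.V = x ++ l ++ (t ++ l' ++ y)) (h : σ.PM m) : ∃ w, σ.Cn m w ∧
      ((∃ x2, x = w.U ++ x2 ∧ w.V = x2 ++ l ++ (t ++ l' ++ y)) ∨
       (∃ t1 t2, t = t1 ++ t2 ∧ w.U = x ++ l ++ t1 ∧ w.V = t2 ++ l' ++ y) ∨
       (∃ y1, y = y1 ++ w.V ∧ w.U = x ++ l ++ (t ++ l' ++ y1))) := by
  obtain ⟨U, V, i⟩ := m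
  simp only at hm
  rw [List.append_assoc] at hm
  rcases List.append_eq_append_iff.1 hm with ⟨s, h1, h2⟩ | ⟨s, h1, h2⟩
  · exact ⟨_, Cn.refl σ _, Or.inl ⟨s, h1, by simp only; rw [h2]; simp [List.append_assoc]⟩⟩
  · rcases List.append_eq_append_iff.1 h2 with ⟨s', h3, h4⟩ | ⟨s', h3, h4⟩
    · -- s = l ++ s', t ++ l' ++ y = s' ++ V
      subst h3
      rw [List.append_assoc] at h4
      rcases List.append_eq_append_iff.1 h4 with ⟨u, h5, h6⟩ | ⟨u, h5, h6⟩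
      · -- s' = t ++ u, l' ++ y = u ++ V
        rcases List.append_eq_append_iff.1 h6 with ⟨v, h7, h8⟩ | ⟨v, h7, h8⟩
        · -- u = l' ++ v, y = v ++ V
          refine ⟨_, Cn.refl σ _, Or.inr (Or.inr ⟨v, h8, ?_⟩)⟩
          simp only
          rw [h1, h5, h7]
          simp [List.append_assoc]
        · -- l' = u ++ v, V = v ++ y
          subst h7 h8 h5 h1
          rw [List.length_append] at hl'
          have e : x ++ (l ++ (t ++ u)) = (x ++ l ++ t) ++ u := by simp [List.append_assoc]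
          rw [e] at h ⊢
          rcases rep_in hl' h with ⟨j, hj⟩ | ⟨j, hj⟩
          · exact ⟨_, hj, Or.inr (Or.inl ⟨t, [], by simp, rfl, by simp⟩)⟩
          · exact ⟨_, hj, Or.inr (Or.inr ⟨[], by simp, by simp [List.append_assoc]⟩)⟩
      · -- t = s' ++ u, V = u ++ (l' ++ y)
        refine ⟨_, Cn.refl σ _, Or.inr (Or.inl ⟨s', u, h5, ?_, ?_⟩)⟩
        · simp only
          rw [h1, List.append_assoc]
        · simp only
          rw [h6, List.append_assoc]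
    · -- l = s ++ s', V = s' ++ ...
      subst h1 h3 h4
      rw [List.length_append] at hl
      rcases rep_in hl h with ⟨j, hj⟩ | ⟨j, hj⟩
      · exact ⟨_, hj, Or.inl ⟨[], by simp, by simp⟩⟩
      · exact ⟨_, hj, Or.inr (Or.inl ⟨[], t, by simp, by simp, rfl⟩)⟩

/-- local confluence, disjoint redexes -/
theorem disj {x l r t l' r' y : List A} (hr : σ.R l r) (hr' : σ.R l' r') {m a1 b1 a2 b2 : Mk A n}
    (hm : σ.PM m) (h1 : σ.Cn m a1) (h2 : σ.Cn m a2) (h3 : Mv x l r (t ++ l' ++ y) a1 b1)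
    (h4 : Mv (x ++ l ++ t) l' r' y a2 b2) : ∃ d, σ.reach b1 d ∧ σ.reach b2 d := by
  have hword : m.U ++ m.V = x ++ l ++ (t ++ l' ++ y) := by rw [h1.1, h3.word.1]
  have hl := σ.len _ _ hr
  have hl' := σ.len _ _ hr'
  obtain ⟨w, hw, hout⟩ := rep2 (by omega) (by omega) hword hm
  obtain ⟨U, V, i⟩ := w
  rcases hout with ⟨x2, h5, h6⟩ | ⟨t1, t2, h5, h6, h7⟩ | ⟨y1, h5, h6⟩
  · simp only at h5 h6
    subst h5 h6
    have e1 : Mv (U ++ x2) l r (t ++ l' ++ y) ⟨U, x2 ++ l ++ (t ++ l' ++ y), i⟩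
        ⟨U, x2 ++ r ++ (t ++ l' ++ y), i⟩ :=
      ⟨rfl, Or.inl ⟨x2, rfl, rfl, rfl, rfl⟩⟩
    have e2 : Mv (U ++ x2 ++ l ++ t) l' r' y ⟨U, x2 ++ l ++ (t ++ l' ++ y), i⟩
        ⟨U, x2 ++ l ++ t ++ r' ++ y, i⟩ :=
      ⟨rfl, Or.inl ⟨x2 ++ l ++ t, by simp, by simp, rfl, rfl⟩⟩
    refine ⟨⟨U, x2 ++ r ++ (t ++ r' ++ y), i⟩, ?_, ?_⟩
    · refine (transfer (sound' hr) h3 e1 (h1.symm.trans hw)).reach (reach_of_MS ⟨rfl, Or.inl ⟨rfl, ?_⟩⟩)
      have := Red.mk (x2 ++ r ++ t) l' r' y hr'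
      simpa [List.append_assoc] using this
    · refine (transfer (sound' hr') h4 e2 (h2.symm.trans hw)).reach
        (reach_of_MS ⟨rfl, Or.inl ⟨rfl, ?_⟩⟩)
      have := Red.mk x2 l r (t ++ r' ++ y) hr
      simpa [List.append_assoc] using this
  · simp only at h5 h6 h7
    subst h5 h6 h7
    have e1 : Mv x l r (t1 ++ t2 ++ l' ++ y) ⟨x ++ l ++ t1, t2 ++ l' ++ y, i⟩
        ⟨x ++ r ++ t1, t2 ++ l' ++ y, i⟩ :=
      ⟨rfl, Or.inr ⟨t1, by simp, rfl, rfl, rfl⟩⟩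
    have e2 : Mv (x ++ l ++ (t1 ++ t2)) l' r' y ⟨x ++ l ++ t1, t2 ++ l' ++ y, i⟩
        ⟨x ++ l ++ t1, t2 ++ r' ++ y, i⟩ :=
      ⟨rfl, Or.inl ⟨t2, by simp, rfl, rfl, rfl⟩⟩
    refine ⟨⟨x ++ r ++ t1, t2 ++ r' ++ y, i⟩, ?_, ?_⟩
    · exact (transfer (sound' hr) h3 e1 (h1.symm.trans hw)).reach
        (reach_of_MS ⟨rfl, Or.inl ⟨rfl, Red.mk t2 l' r' y hr'⟩⟩)
    · exact (transfer (sound' hr') h4 e2 (h2.symm.trans hw)).reach
        (reach_of_MS ⟨rfl, Or.inr ⟨rfl, Red.mk x l r t1 hr⟩⟩)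
  · simp only at h5 h6
    subst h5 h6
    have e1 : Mv x l r (t ++ l' ++ (y1 ++ V)) ⟨x ++ l ++ (t ++ l' ++ y1), V, i⟩
        ⟨x ++ r ++ (t ++ l' ++ y1), V, i⟩ :=
      ⟨rfl, Or.inr ⟨t ++ l' ++ y1, by simp, by simp, rfl, by simp⟩⟩
    have e2 : Mv (x ++ l ++ t) l' r' (y1 ++ V) ⟨x ++ l ++ (t ++ l' ++ y1), V, i⟩
        ⟨x ++ l ++ t ++ r' ++ y1, V, i⟩ :=
      ⟨rfl, Or.inr ⟨y1, rfl, by simp, rfl, rfl⟩⟩
    refine ⟨⟨x ++ r ++ (t ++ r' ++ y1), V, i⟩, ?_, ?_⟩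
    · refine (transfer (sound' hr) h3 e1 (h1.symm.trans hw)).reach
        (reach_of_MS ⟨rfl, Or.inr ⟨rfl, ?_⟩⟩)
      have := Red.mk (x ++ r ++ t) l' r' y1 hr'
      simpa [List.append_assoc] using this
    · refine (transfer (sound' hr') h4 e2 (h2.symm.trans hw)).reach
        (reach_of_MS ⟨rfl, Or.inr ⟨rfl, ?_⟩⟩)
      have := Red.mk x l r (t ++ r' ++ y1) hr
      simpa [List.append_assoc] using this

theorem lc_aux {x l r y x' l' r' y' t : List A} (hr : σ.R l r) (hr' : σ.R l' r')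
    (hx : x' = x ++ t) (hy : l ++ y = t ++ (l' ++ y')) {m a1 b1 a2 b2 : Mk A n}
    (hm : σ.PM m) (h1 : σ.Cn m a1) (h2 : σ.Cn m a2) (h3 : Mv x l r y a1 b1)
    (h4 : Mv x' l' r' y' a2 b2) : ∃ d, σ.reach b1 d ∧ σ.reach b2 d := by
  have hl := σ.len _ _ hr
  have hl' := σ.len _ _ hr'
  subst hx
  rcases List.append_eq_append_iff.1 hy with ⟨t', h5, h6⟩ | ⟨l1, h5, h6⟩
  · -- t = l ++ t', y = t' ++ (l' ++ y')
    subst h5 h6
    rw [← List.append_assoc] at h4 h3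
    exact disj hr hr' hm h1 h2 h3 h4
  · -- l = t ++ l1, l' ++ y' = l1 ++ y
    rcases List.append_eq_append_iff.1 h6 with ⟨l2, h7, h8⟩ | ⟨l3, h7, h8⟩
    · -- l1 = l' ++ l2, y' = l2 ++ y
      subst h7 h8
      refine crit (X := x) (Y := y) (p := []) (l := l) (r := r) (q := []) (p' := t) (l' := l')
        (r' := r') (q' := l2) ?_ hr hr' ?_ hm h1 h2 ?_ h4
      · simp [h5]
      · simp only [List.nil_append, List.append_nil]
        omega
      · simpa using h3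
    · -- l' = l1 ++ l3, y = l3 ++ y'
      subst h7 h8
      refine crit (X := x) (Y := y') (p := []) (l := l) (r := r) (q := l3) (p' := t)
        (l' := l1 ++ l3) (r' := r') (q' := []) ?_ hr hr' ?_ hm h1 h2 ?_ ?_
      · simp [h5]
      · simp only [List.nil_append, List.length_append] at hl' ⊢
        omega
      · simpa using h3
      · simpa using h4

/-- local confluence -/
theorem lc {m p q : Mk A n} (hm : σ.PM m) (hp : σ.TR m p) (hq : σ.TR m q) :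
    ∃ d, σ.reach p d ∧ σ.reach q d := by
  obtain ⟨a1, b1, h1, h2, h3⟩ := hp
  obtain ⟨a2, b2, h1', h2', h3'⟩ := hq
  obtain ⟨x, l, r, y, hr, h4⟩ := MS_iff.1 h2
  obtain ⟨x', l', r', y', hr', h4'⟩ := MS_iff.1 h2'
  have hw : x ++ (l ++ y) = x' ++ (l' ++ y') := by
    rw [← List.append_assoc, ← List.append_assoc, ← h4.word.1, ← h4'.word.1, ← h1.1, ← h1'.1]
  have key : ∃ d, σ.reach b1 d ∧ σ.reach b2 d := by
    rcases List.append_eq_append_iff.1 hw with ⟨t, h5, h6⟩ | ⟨t, h5, h6⟩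
    · exact lc_aux hr hr' h5 h6 hm h1 h1' h4 h4'
    · obtain ⟨d, hd1, hd2⟩ := lc_aux hr' hr h5 h6 hm h1' h1 h4' h4
      exact ⟨d, hd2, hd1⟩
  obtain ⟨d, hd1, hd2⟩ := key
  exact ⟨d, h3.symm.reach hd1, h3'.symm.reach hd2⟩

/-- irreducible words -/
def Irr (σ : Sys A T n) (w : List A) : Prop := ∀ w', ¬ Red σ.R w w'

/-- a pair of marks of a word can be tracked to an irreducible word. -/
theorem exists_nf2 (w : List A) : ∀ m m' : Mk A n, m.U ++ m.V = w → m'.U ++ m'.V = w →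
    σ.PM m → σ.PM m' → ∃ d d', σ.reach m d ∧ σ.reach m' d' ∧ σ.Irr (d.U ++ d.V) ∧
      σ.Irr (d'.U ++ d'.V) ∧ (σ.Cn d d' → σ.Cn m m') := by
  induction w using σ.wf.induction with
  | h w ih =>
    intro m m' hm hm' hP hP'
    by_cases hirr : σ.Irr w
    · refine ⟨m, m', reach_of_Cn (Cn.refl σ _), reach_of_Cn (Cn.refl σ _), ?_, ?_, id⟩
      · rw [hm]; exact hirr
      · rw [hm']; exact hirr
    · unfold Irr at hirr
      push Not at hirr
      obtain ⟨w', hred⟩ := hirr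
      have hred' := hred
      cases hred' with
      | mk x l r y hr =>
        have hl := σ.len _ _ hr
        obtain ⟨u, hu, hout⟩ := rep (c := l) (by omega) hm hP
        obtain ⟨u', hu', hout'⟩ := rep (c := l) (by omega) hm' hP'
        have mv : ∀ u : Mk A n, Out x l y u → ∃ v, Mv x l r y u v := by
          intro u hu
          rcases hu with ⟨x2, h1, h2⟩ | ⟨y1, h1, h2⟩
          · exact ⟨⟨u.U, x2 ++ r ++ y, u.i⟩, rfl, Or.inl ⟨x2, h1, h2, rfl, rfl⟩⟩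
          · exact ⟨⟨x ++ r ++ y1, u.V, u.i⟩, rfl, Or.inr ⟨y1, h1, h2, rfl, rfl⟩⟩
        obtain ⟨v, hv⟩ := mv u hout
        obtain ⟨v', hv'⟩ := mv u' hout'
        have hPv : σ.PM v := (hv.PM (sound' hr)).1 ((PM_Cn hu).1 hP)
        have hPv' : σ.PM v' := (hv'.PM (sound' hr)).1 ((PM_Cn hu').1 hP')
        obtain ⟨d, d', h1, h2, h3, h4, h5⟩ := ih (x ++ r ++ y) hred v v' hv.word.2 hv'.word.2 hPv hPv'
        refine ⟨d, d', ?_, ?_, h3, h4, fun h => ?_⟩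
        · exact hu.reach ((reach_of_MS (MS_iff.2 ⟨x, l, r, y, hr, hv⟩)).trans h1)
        · exact hu'.reach ((reach_of_MS (MS_iff.2 ⟨x, l, r, y, hr, hv'⟩)).trans h2)
        · exact hu.trans ((transfer (sound' hr).symm hv.symm hv'.symm (h5 h)).trans hu'.symm)

theorem exists_nf {m : Mk A n} (hP : σ.PM m) : ∃ d, σ.reach m d ∧ σ.Irr (d.U ++ d.V) := by
  obtain ⟨d, _, h1, _, h3, _, _⟩ := exists_nf2 (m.U ++ m.V) m m rfl rfl hP hP
  exact ⟨d, h1, h3⟩

/-- uniqueness of normal forms of marks -/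
theorem unique_nf (w : List A) : ∀ m d d' : Mk A n, m.U ++ m.V = w → σ.PM m → σ.reach m d →
    σ.reach m d' → σ.Irr (d.U ++ d.V) → σ.Irr (d'.U ++ d'.V) → σ.Cn d d' := by
  induction w using σ.wf.induction with
  | h w ih =>
    intro m d d' hm hP h1 h2 h3 h4
    obtain ⟨e, he1, he2⟩ := h1
    obtain ⟨e', he1', he2'⟩ := h2
    rcases ReflTransGen.cases_head he1 with rfl | ⟨p, hp1, hp2⟩
    · rcases ReflTransGen.cases_head he1' with rfl | ⟨q, hq1, hq2⟩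
      · exact he2.symm.trans he2'
      · exact absurd hq1.red (by rw [he2.1]; exact h3 _)
    · rcases ReflTransGen.cases_head he1' with rfl | ⟨q, hq1, hq2⟩
      · exact absurd hp1.red (by rw [he2'.1]; exact h4 _)
      · obtain ⟨f, hf1, hf2⟩ := lc hP hp1 hq1
        have hPp : σ.PM p := hp1.PM.1 hP
        have hPq : σ.PM q := hq1.PM.1 hP
        obtain ⟨g, hg1, hg2⟩ := exists_nf (hf1.PM.1 hPp)
        have hpr := hp1.red
        have hqr := hq1.red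
        rw [hm] at hpr hqr
        have h5 := ih _ hpr p d g rfl hPp ⟨e, hp2, he2⟩ (hf1.trans hg1) h3 hg2
        have h6 := ih _ hqr q d' g rfl hPq ⟨e', hq2, he2'⟩ (hf2.trans hg1) h4 hg2
        exact h5.trans h6.symm

/-- marks with the same normal form -/
def SN (σ : Sys A T n) (m m' : Mk A n) : Prop :=
  ∃ d, σ.reach m d ∧ σ.reach m' d ∧ σ.Irr (d.U ++ d.V)

theorem SN.symm {m m' : Mk A n} (h : σ.SN m m') : σ.SN m' m := by
  obtain ⟨d, h1, h2, h3⟩ := h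
  exact ⟨d, h2, h1, h3⟩

theorem SN.trans {m m' m'' : Mk A n} (hP : σ.PM m') (h : σ.SN m m') (h' : σ.SN m' m'') :
    σ.SN m m'' := by
  obtain ⟨d, h1, h2, h3⟩ := h
  obtain ⟨e, h4, h5, h6⟩ := h'
  have h7 := unique_nf _ m' d e rfl hP h2 h4 h3 h6
  exact ⟨e, h1.trans (reach_of_Cn h7), h5, h6⟩

theorem SN_of_reach {m m' : Mk A n} (hP : σ.PM m') (h : σ.reach m m') : σ.SN m m' := by
  obtain ⟨d, h1, h2⟩ := exists_nf hP
  exact ⟨d, h.trans h1, h1, h2⟩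

theorem SN_V {V V' : List A} (h : EqvGen (Red σ.R) V V') (U : List A) (i : Fin n) :
    σ.phi V = σ.phi V' ∧ (σ.PM ⟨U, V, i⟩ → σ.SN ⟨U, V, i⟩ ⟨U, V', i⟩) := by
  induction h with
  | rel V V' h =>
    have h1 : σ.MS ⟨U, V, i⟩ ⟨U, V', i⟩ := ⟨rfl, Or.inl ⟨rfl, h⟩⟩
    refine ⟨?_, fun hP => SN_of_reach (h1.PM.1 hP) (reach_of_MS h1)⟩
    cases h with
    | mk x l r y h => simp only [phi_append, sound' h]
  | refl V => exact ⟨rfl, fun hP => SN_of_reach hP (reach_of_Cn (Cn.refl σ _))⟩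
  | symm V V' _ ih =>
    refine ⟨ih.1.symm, fun hP => (ih.2 ?_).symm⟩
    unfold Sys.PM at hP ⊢
    simp only at hP ⊢
    rw [ih.1]
    exact hP
  | trans V V' V'' _ _ ih1 ih2 =>
    refine ⟨ih1.1.trans ih2.1, fun hP => ?_⟩
    have hP' : σ.PM ⟨U, V', i⟩ := by
      unfold Sys.PM at hP ⊢
      simp only at hP ⊢
      rw [← ih1.1]
      exact hP
    exact SN.trans hP' (ih1.2 hP) (ih2.2 hP')

theorem SN_U {U U' : List A} (h : EqvGen (Red σ.R) U U') (V : List A) (i : Fin n) :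
    σ.phi U = σ.phi U' ∧ (σ.PM ⟨U, V, i⟩ → σ.SN ⟨U, V, i⟩ ⟨U', V, i⟩) := by
  induction h with
  | rel U U' h =>
    have h1 : σ.MS ⟨U, V, i⟩ ⟨U', V, i⟩ := ⟨rfl, Or.inr ⟨rfl, h⟩⟩
    refine ⟨?_, fun hP => SN_of_reach (h1.PM.1 hP) (reach_of_MS h1)⟩
    cases h with
    | mk x l r y h => simp only [phi_append, sound' h]
  | refl U => exact ⟨rfl, fun hP => SN_of_reach hP (reach_of_Cn (Cn.refl σ _))⟩
  | symm U U' _ ih =>
    refine ⟨ih.1.symm, fun hP => (ih.2 ?_).symm⟩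
    unfold Sys.PM at hP ⊢
    simp only at hP ⊢
    rw [ih.1]
    exact hP
  | trans U U' U'' _ _ ih1 ih2 =>
    refine ⟨ih1.1.trans ih2.1, fun hP => ?_⟩
    have hP' : σ.PM ⟨U', V, i⟩ := by
      unfold Sys.PM at hP ⊢
      simp only at hP ⊢
      rw [← ih1.1]
      exact hP
    exact SN.trans hP' (ih1.2 hP) (ih2.2 hP')

/-- The conclusion: if `x g = x`, `g y = y` and `g` connects `i` with `j` then `i` and `j` are
connected between `x` and `y`, if `(x, i, y)` is a long mark. -/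
theorem main (σ : Sys A T n) {U G V : List A} (hU : EqvGen (Red σ.R) (U ++ G) U)
    (hV : EqvGen (Red σ.R) V (G ++ V)) {i j : Fin n}
    (hij : CS (σ.π (σ.phi U)) (σ.π (σ.phi G)) (σ.π (σ.phi V)) i j)
    (hP : σ.P (σ.phi U) i (σ.phi V)) :
    CS (σ.π (σ.phi U)) 1 (σ.π (σ.phi V)) i j := by
  have hP0 : σ.PM ⟨U, V, i⟩ := hP
  have h1 := (SN_V hV U i).2 hP0
  have hP1 : σ.PM ⟨U, G ++ V, i⟩ := by
    unfold Sys.PM
    simp only
    rw [← (SN_V hV U i).1]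
    exact hP
  have hcn := σ.Cn_of_CS hij
  have hP2 : σ.PM ⟨U ++ G, V, j⟩ := (PM_Cn hcn).1 hP1
  have h2 : σ.SN ⟨U, G ++ V, i⟩ ⟨U ++ G, V, j⟩ := SN_of_reach hP2 (reach_of_Cn hcn)
  have h3 := (SN_U hU V j).2 hP2
  have hP3 : σ.PM ⟨U, V, j⟩ := by
    have h4 := (SN_U hU V j).1
    unfold Sys.PM at hP2 ⊢
    simp only at hP2 ⊢
    rw [← h4]
    exact hP2
  obtain ⟨e, he1, he2, he3⟩ := SN.trans hP2 (SN.trans hP1 h1 h2) h3
  obtain ⟨d, d', h5, h6, h7, h8, h9⟩ := exists_nf2 (U ++ V) ⟨U, V, i⟩ ⟨U, V, j⟩ rfl rfl hP0 hP3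
  have h10 := unique_nf _ _ d e rfl hP0 h5 he1 h7 he3
  have h11 := unique_nf _ _ d' e rfl hP3 h6 he2 h8 he3
  have h12 := h9 (h10.trans h11.symm)
  have h13 : σ.Cn ⟨U, [] ++ V, i⟩ ⟨U ++ [], V, j⟩ := by simpa using h12
  have h14 := σ.CS_of_Cn h13
  simpa [phi] using h14

end Sys

end Pool.Agent.IGQ
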